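import Pool.Agent.KO.A.Spec

/-!
# Project KO, row A2: classes over the field of constants, clearing denominators
-/

set_option autoImplicit false

namespace Pool.Agent.KO

open MvPolynomial

namespace A2

theorem map_gAff {R S : Type} [CommRing R] [CommRing S] (f : R →+* S) (t : R) :
    MvPolynomial.map f (gAff t) = gAff (f t) := by
  simp only [gAff, map_sub, map_add, map_mul, map_pow, MvPolynomial.map_X, MvPolynomial.map_C,
    map_one]

theorem nf_map {R S : Type} [CommRing R] [CommRing S] (f : R →+* S)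
    {P : MvPolynomial (Fin 4) R} (h : NF P) : NF (MvPolynomial.map f P) := fun a ha =>
  h a (MvPolynomial.support_map_subset f P ha)

theorem cls_eq_zero_iff {r : ℝ} [Fact (0 < r)] (P : MvPolynomial (Fin 4) (AnR r)) :
    cls P = 0 ↔ gAff (tK r) ∣ MvPolynomial.map (algebraMap (AnR r) (Kr r)) P := by
  unfold cls
  rw [RingHom.comp_apply, Ideal.Quotient.eq_zero_iff_mem, Ideal.mem_span_singleton]

theorem cls_of_dvd {r : ℝ} [Fact (0 < r)] {P : MvPolynomial (Fin 4) (AnR r)}
    (h : gAff (tR r) ∣ P) : cls P = 0 := by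
  rw [cls_eq_zero_iff]
  have h1 := map_dvd (MvPolynomial.map (algebraMap (AnR r) (Kr r))) h
  rwa [map_gAff] at h1

/-- Clearing the denominators of one polynomial. -/
theorem clear_one (r : ℝ) [Fact (0 < r)] (p : MvPolynomial (Fin 4) (Kr r)) :
    ∃ c : AnR r, c ≠ 0 ∧ ∃ P : MvPolynomial (Fin 4) (AnR r),
      C (algebraMap (AnR r) (Kr r) c) * p = MvPolynomial.map (algebraMap (AnR r) (Kr r)) P := by
  induction p using MvPolynomial.induction_on with
  | C a =>
    obtain ⟨x, y, hy, hxy⟩ := IsFractionRing.div_surjective (A := AnR r) a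
    have hy0 : y ≠ 0 := nonZeroDivisors.ne_zero hy
    have hy1 : algebraMap (AnR r) (Kr r) y ≠ 0 := fun h0 =>
      hy0 ((IsFractionRing.injective (AnR r) (Kr r)) (by rw [h0, map_zero]))
    refine ⟨y, hy0, C x, ?_⟩
    rw [MvPolynomial.map_C, ← C_mul, ← hxy, mul_div_cancel₀ _ hy1]
  | add p q hp hq =>
    obtain ⟨c, hc, P, hP⟩ := hp
    obtain ⟨d, hd, Q, hQ⟩ := hq
    refine ⟨c * d, mul_ne_zero hc hd, C d * P + C c * Q, ?_⟩
    have h1 : MvPolynomial.map (algebraMap (AnR r) (Kr r)) (C d * P + C c * Q)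
        = C (algebraMap (AnR r) (Kr r) d) * (C (algebraMap (AnR r) (Kr r) c) * p)
          + C (algebraMap (AnR r) (Kr r) c) * (C (algebraMap (AnR r) (Kr r) d) * q) := by
      rw [hP, hQ, map_add, map_mul, map_mul, MvPolynomial.map_C, MvPolynomial.map_C]
    rw [h1, map_mul (algebraMap (AnR r) (Kr r)), C_mul]
    ring
  | mul_X p i hp =>
    obtain ⟨c, hc, P, hP⟩ := hp
    refine ⟨c, hc, P * X i, ?_⟩
    rw [map_mul, ← hP, MvPolynomial.map_X]
    ring

/-- Clearing the denominators of finitely many polynomials. -/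
theorem clear_fin (r : ℝ) [Fact (0 < r)] (M : ℕ) (p : Fin M → MvPolynomial (Fin 4) (Kr r)) :
    ∃ c : AnR r, c ≠ 0 ∧ ∃ P : Fin M → MvPolynomial (Fin 4) (AnR r), ∀ i,
      C (algebraMap (AnR r) (Kr r) c) * p i
        = MvPolynomial.map (algebraMap (AnR r) (Kr r)) (P i) := by
  classical
  choose c hc P hP using fun i => clear_one r (p i)
  refine ⟨∏ i, c i, Finset.prod_ne_zero_iff.2 fun i _ => hc i,
    fun i => C (∏ j ∈ Finset.univ.erase i, c j) * P i, fun i => ?_⟩
  rw [map_mul, ← hP i, MvPolynomial.map_C, ← mul_assoc, ← C_mul, ← map_mul,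
    Finset.prod_erase_mul _ _ (Finset.mem_univ i)]

end A2

theorem sp_cls (h1 : SpNf) (h2 : SpNfU) : SpCls := by
  intro r hr P
  refine ⟨fun h => ?_, A2.cls_of_dvd⟩
  obtain ⟨P', hN, hd⟩ := h1 (AnR r) (tR r) P
  have h3 : cls P' = 0 := by
    have h4 := A2.cls_of_dvd hd
    rw [map_sub, h, zero_sub, neg_eq_zero] at h4
    exact h4
  rw [A2.cls_eq_zero_iff] at h3
  have h5 := h2 (Kr r) (tK r) _ (A2.nf_map (algebraMap (AnR r) (Kr r)) hN) h3
  have h6 : P' = 0 := by
    apply MvPolynomial.map_injective _ (IsFractionRing.injective (AnR r) (Kr r))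
    rw [h5, map_zero]
  rwa [h6, sub_zero] at hd

theorem sp_rep (h1 : SpNf) : SpRep := by
  intro r hr M a
  choose p hp using fun i => Ideal.Quotient.mk_surjective (a i)
  obtain ⟨c, hc, P, hP⟩ := A2.clear_fin r M p
  choose Q hQ hd using fun i => h1 (AnR r) (tR r) (P i)
  refine ⟨c, hc, Q, hQ, fun i => ?_⟩
  have h2 := A2.cls_of_dvd (hd i)
  rw [map_sub, sub_eq_zero] at h2
  rw [← h2, ← hp i]
  unfold cls
  rw [RingHom.comp_apply, RingHom.comp_apply, MvPolynomial.map_C, ← map_mul, hP i]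

end Pool.Agent.KO
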