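import Pool.Agent.KO.U.Defs

/-!
# Project KO, block A: polynomials with coefficients analytic in `t`
-/

set_option autoImplicit false

namespace Pool.Agent.KO

open Set Filter Topology MvPolynomial

/-- The affine part `z = 1` of the family over the disc of radius `r`. -/
def Vaff (r : ℝ) : Set (Fin 6 → ℂ) := {p | G p = 0 ∧ p 0 = 1 ∧ ‖p 5‖ < r}

theorem AnR.exists_fun {r : ℝ} (f : AnR r) :
    ∃ F : ℂ → ℂ, AnalyticOnNhd ℂ F (Metric.ball 0 r) ∧ ∀ s, f.1 s = F s := f.2

theorem AnR.isDomain {r : ℝ} (hr : 0 < r) : IsDomain (AnR r) := by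
  have h0 : (0 : ℂ) ∈ Metric.ball (0 : ℂ) r := by simpa using hr
  have : Nontrivial (AnR r) := by
    refine ⟨⟨0, 1, fun h => ?_⟩⟩
    have := congrFun (congrArg Subtype.val h) ⟨0, h0⟩
    simp at this
  have : NoZeroDivisors (AnR r) := by
    refine ⟨?_⟩
    intro f g h
    obtain ⟨F, hF, hf⟩ := AnR.exists_fun f
    obtain ⟨G, hG, hg⟩ := AnR.exists_fun g
    have h1 : ∀ z ∈ Metric.ball (0 : ℂ) r, F z * G z = 0 := fun z hz => by
      have h2 : (f.1 * g.1) ⟨z, hz⟩ = 0 := by
        have := congrFun (congrArg Subtype.val h) ⟨z, hz⟩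
        simpa using this
      rw [Pi.mul_apply, hf, hg] at h2
      exact h2
    rcases AnalyticOnNhd.eq_zero_or_eq_zero_of_mul_eq_zero hF hG h1
      (convex_ball (0 : ℂ) r).isPreconnected with h | h
    · left
      apply Subtype.ext
      funext z
      rw [hf]
      exact h z.1 z.2
    · right
      apply Subtype.ext
      funext z
      rw [hg]
      exact h z.1 z.2
  exact NoZeroDivisors.to_isDomain _

instance AnR.instIsDomain {r : ℝ} [h : Fact (0 < r)] : IsDomain (AnR r) := AnR.isDomain h.out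

/-- the field of constants -/
abbrev Kr (r : ℝ) [Fact (0 < r)] : Type := FractionRing (AnR r)

/-- the element `t` of the field of constants -/
noncomputable abbrev tK (r : ℝ) [Fact (0 < r)] : Kr r := algebraMap (AnR r) (Kr r) (tR r)

/-- A polynomial with coefficients in `AnR r`, evaluated at the point `x` with `t = s`
(zero outside of the disc). -/
noncomputable def evQ {r : ℝ} {σ : Type} (P : MvPolynomial σ (AnR r)) (x : σ → ℂ) (s : ℂ) : ℂ :=
  if h : ‖s‖ < r then eval₂ (evR ⟨s, by simpa using h⟩) x P else 0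

/-- A polynomial in `u, w, x, y` with coefficients in `AnR r`, evaluated at the point `p`. -/
noncomputable def evP {r : ℝ} (P : MvPolynomial (Fin 4) (AnR r)) (p : Fin 6 → ℂ) : ℂ :=
  evQ P (affPt p) (p 5)

/-- The homogenization of degree `m` of `P`, evaluated at the point `p` of the cone. -/
noncomputable def evH {r : ℝ} (m : ℕ) (P : MvPolynomial (Fin 4) (AnR r)) (p : Fin 6 → ℂ) : ℂ :=
  if h : ‖p 5‖ < r then
    ∑ a ∈ P.support, evR ⟨p 5, by simpa using h⟩ (P.coeff a) *
      (p 0 ^ (m - Finsupp.weight wAff a) * ∏ i, affPt p i ^ a i)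
  else 0

/-- Normal form: degree at most `1` in `y`. -/
def NF {R : Type} [CommRing R] (P : MvPolynomial (Fin 4) R) : Prop := ∀ a ∈ P.support, a 3 ≤ 1

/-- The class of a polynomial over `AnR r` in the coordinate ring over the field of constants. -/
noncomputable def cls {r : ℝ} [Fact (0 < r)] : MvPolynomial (Fin 4) (AnR r) →+* Raff (tK r) :=
  (Ideal.Quotient.mk _).comp (MvPolynomial.map (algebraMap (AnR r) (Kr r)))

end Pool.Agent.KO
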