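import Pool.Agent.KO.A.Spec
import Pool.Agent.KO.C.Iden

/-!
# Project KO, row A4: vanishing and density on the affine family
-/

set_option autoImplicit false

namespace Pool.Agent.KO

open Set Filter Topology MvPolynomial

namespace A4

theorem root (y c c' : ℂ) (hy : y ^ 2 = c) :
    ∃ y' : ℂ, y' ^ 2 = c' ∧ ‖y' - y‖ ^ 2 ≤ ‖c' - c‖ := by
  obtain ⟨s, hs⟩ := IsAlgClosed.exists_pow_nat_eq c' (n := 2) two_pos
  have key : ‖s - y‖ * ‖s + y‖ = ‖c' - c‖ := by
    rw [← norm_mul]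
    congr 1
    rw [← hs, ← hy]; ring
  rcases le_total ‖s - y‖ ‖s + y‖ with h | h
  · refine ⟨s, hs, ?_⟩
    rw [← key, _root_.sq]
    exact mul_le_mul_of_nonneg_left h (norm_nonneg _)
  · refine ⟨-s, by rw [neg_sq, hs], ?_⟩
    have e : ‖-s - y‖ = ‖s + y‖ := by
      rw [show -s - y = -(s + y) by ring, norm_neg]
    rw [e, ← key, _root_.sq]
    exact mul_le_mul_of_nonneg_right h (norm_nonneg _)

/-- The part of degree `0` in `y`. -/
noncomputable def p0 (P : MvPolynomial (Fin 4) ℂ) : MvPolynomial (Fin 4) ℂ :=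
  ∑ a ∈ P.support.filter (fun a => a 3 = 0), monomial a (P.coeff a)

/-- The coefficient of `y`. -/
noncomputable def p1 (P : MvPolynomial (Fin 4) ℂ) : MvPolynomial (Fin 4) ℂ :=
  ∑ a ∈ P.support.filter (fun a => ¬ a 3 = 0), monomial (a.erase 3) (P.coeff a)

theorem decomp (P : MvPolynomial (Fin 4) ℂ) (h : NF P) : P = p0 P + p1 P * X 3 := by
  conv_lhs => rw [P.as_sum, ← Finset.sum_filter_add_sum_filter_not _ (fun a => a 3 = 0)]
  congr 1
  rw [p1, Finset.sum_mul]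
  refine Finset.sum_congr rfl fun a ha => ?_
  obtain ⟨ha, ha3⟩ := Finset.mem_filter.1 ha
  have h3 : a 3 = 1 := by
    have := h a ha
    omega
  have h4 : a.erase 3 + Finsupp.single 3 1 = a := by
    rw [← h3]
    exact Finsupp.erase_add_single 3 a
  rw [X, monomial_mul, mul_one, h4]

theorem eval_p0 (P : MvPolynomial (Fin 4) ℂ) (v v' : Fin 4 → ℂ) (h0 : v 0 = v' 0)
    (h1 : v 1 = v' 1) (h2 : v 2 = v' 2) : eval v (p0 P) = eval v' (p0 P) := by
  rw [p0, map_sum, map_sum]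
  refine Finset.sum_congr rfl fun a ha => ?_
  have ha3 := (Finset.mem_filter.1 ha).2
  rw [eval_monomial, eval_monomial, Finsupp.prod_fintype _ _ (fun _ => pow_zero _),
    Finsupp.prod_fintype _ _ (fun _ => pow_zero _), Fin.prod_univ_four, Fin.prod_univ_four, h0, h1,
    h2, ha3, pow_zero, pow_zero]

theorem eval_p1 (P : MvPolynomial (Fin 4) ℂ) (v v' : Fin 4 → ℂ) (h0 : v 0 = v' 0)
    (h1 : v 1 = v' 1) (h2 : v 2 = v' 2) : eval v (p1 P) = eval v' (p1 P) := by
  rw [p1, map_sum, map_sum]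
  refine Finset.sum_congr rfl fun a _ => ?_
  have ha3 : (a.erase 3) 3 = 0 := Finsupp.erase_same
  rw [eval_monomial, eval_monomial, Finsupp.prod_fintype _ _ (fun _ => pow_zero _),
    Finsupp.prod_fintype _ _ (fun _ => pow_zero _), Fin.prod_univ_four, Fin.prod_univ_four, h0, h1,
    h2, ha3, pow_zero, pow_zero]

theorem eval_q (v : Fin 4 → ℂ) (x : ℂ) (P : MvPolynomial (Fin 4) ℂ) :
    (aeval (![Polynomial.C (v 0), Polynomial.C (v 1), Polynomial.X, 0] : Fin 4 → Polynomial ℂ)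
      P).eval x = eval ![v 0, v 1, x, 0] P := by
  have h := map_aeval (![Polynomial.C (v 0), Polynomial.C (v 1), Polynomial.X, 0] :
    Fin 4 → Polynomial ℂ) (Polynomial.evalRingHom x) P
  rw [Polynomial.coe_evalRingHom] at h
  rw [h, coe_eval₂Hom, ← eval₂_id]
  congr 1
  · ext z
    simp
  · funext i
    fin_cases i <;> simp

/-- The norm of a normal form is zero only if the normal form is. -/
theorem alg (P : MvPolynomial (Fin 4) ℂ) (hP : NF P) (b : (Fin 4 → ℂ) → ℂ)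
    (hb : ∀ v v' : Fin 4 → ℂ, v 0 = v' 0 → v 1 = v' 1 → b v = b v')
    (h : ∀ v : Fin 4 → ℂ, eval v (p0 P) ^ 2 + eval v (p1 P) ^ 2 * (v 2 ^ 3 + b v) = 0) :
    P = 0 := by
  refine MvPolynomial.funext fun v => ?_
  set f : Fin 4 → Polynomial ℂ := ![Polynomial.C (v 0), Polynomial.C (v 1), Polynomial.X, 0]
    with hf
  set q0 := aeval f (p0 P) with hq0
  set q1 := aeval f (p1 P) with hq1
  have hmain : q0 ^ 2 + q1 ^ 2 * (Polynomial.X ^ 3 + Polynomial.C (b v)) = 0 := by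
    refine Polynomial.funext fun x => ?_
    have h1 := h ![v 0, v 1, x, 0]
    rw [← eval_q v x (p0 P), ← eval_q v x (p1 P), ← hf, ← hq0, ← hq1,
      hb ![v 0, v 1, x, 0] v rfl rfl] at h1
    rw [Polynomial.eval_add, Polynomial.eval_mul, Polynomial.eval_pow, Polynomial.eval_pow,
      Polynomial.eval_add, Polynomial.eval_pow, Polynomial.eval_X, Polynomial.eval_C,
      Polynomial.eval_zero]
    exact h1
  have h1 : q1 = 0 := by
    by_contra hne
    have h2 : q0 ^ 2 = -(q1 ^ 2 * (Polynomial.X ^ 3 + Polynomial.C (b v))) :=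
      eq_neg_of_add_eq_zero_left hmain
    have hX : (Polynomial.X ^ 3 + Polynomial.C (b v)).natDegree = 3 :=
      Polynomial.natDegree_X_pow_add_C
    have hX0 : (Polynomial.X ^ 3 + Polynomial.C (b v)) ≠ 0 := by
      intro h0
      rw [h0, Polynomial.natDegree_zero] at hX
      omega
    have h3 := congrArg Polynomial.natDegree h2
    rw [Polynomial.natDegree_neg, Polynomial.natDegree_mul (pow_ne_zero 2 hne) hX0, hX,
      Polynomial.natDegree_pow, Polynomial.natDegree_pow] at h3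
    omega
  have h0 : q0 = 0 := by
    rw [h1] at hmain
    simpa using hmain
  have e0 : eval v (p0 P) = 0 := by
    rw [eval_p0 P v ![v 0, v 1, v 2, 0] rfl rfl rfl, ← eval_q v (v 2), ← hf, ← hq0, h0,
      Polynomial.eval_zero]
  have e1 : eval v (p1 P) = 0 := by
    rw [eval_p1 P v ![v 0, v 1, v 2, 0] rfl rfl rfl, ← eval_q v (v 2), ← hf, ← hq1, h1,
      Polynomial.eval_zero]
  rw [decomp P hP, map_add, map_mul, e0, e1, map_zero]
  ring

/-- The part of the equation without `x` and `y`. -/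
def bb (c : ℂ) (v : Fin 4 → ℂ) : ℂ :=
  c * v 1 ^ 11 + v 0 * v 1 ^ 10 + v 0 ^ 12 * v 1 - 1 - v 1 ^ 9

/-- The point of the affine family with given coordinates. -/
def pp (c : ℂ) (v : Fin 4 → ℂ) (y : ℂ) : Fin 6 → ℂ := ![1, v 0, v 1, v 2, y, c]

theorem G_pp (c : ℂ) (v : Fin 4 → ℂ) (y : ℂ) : G (pp c v y) = y ^ 2 + (v 2 ^ 3 + bb c v) := by
  show y ^ 2 + v 2 ^ 3 + c * v 1 ^ 11 + v 0 * 1 * v 1 ^ 10 + v 0 ^ 12 * v 1 - 1 ^ 66
    - 1 ^ 12 * v 1 ^ 9 = _
  rw [bb]
  ring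

theorem pp_self {p : Fin 6 → ℂ} (h : p 0 = 1) : pp (p 5) (affPt p) (p 4) = p := by
  funext i
  fin_cases i
  · exact h.symm
  all_goals rfl

theorem evP_add {r : ℝ} (P Q : MvPolynomial (Fin 4) (AnR r)) (p : Fin 6 → ℂ) :
    evP (P + Q) p = evP P p + evP Q p := by
  unfold evP evQ
  split_ifs
  · exact eval₂_add _ _
  · simp

theorem evP_mul {r : ℝ} (P Q : MvPolynomial (Fin 4) (AnR r)) (p : Fin 6 → ℂ) :
    evP (P * Q) p = evP P p * evP Q p := by
  unfold evP evQ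
  split_ifs
  · exact eval₂_mul _ _
  · simp

theorem evP_gAff {r : ℝ} (p : Fin 6 → ℂ) (h0 : p 0 = 1) (h5 : ‖p 5‖ < r) :
    evP (gAff (tR r)) p = G p := by
  unfold evP evQ gAff
  rw [dif_pos h5]
  simp only [eval₂_add, eval₂_sub, eval₂_mul, eval₂_pow, eval₂_X, eval₂_C, eval₂_one]
  have h1 : evR ⟨p 5, by simpa using h5⟩ (tR r) = p 5 := rfl
  rw [h1]
  unfold G
  rw [h0]
  show p 4 ^ 2 + p 3 ^ 3 + p 5 * p 2 ^ 11 + p 1 * p 2 ^ 10 + p 1 ^ 12 * p 2 - 1 - p 2 ^ 9 = _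
  ring

end A4

theorem sp_zer (hc : SpCls) (_he : EvFacts) : SpZer := by
  intro r _ P hP p hp
  obtain ⟨H, hH⟩ := (hc r P).1 hP
  rw [hH, A4.evP_mul, A4.evP_gAff p hp.2.1 hp.2.2, hp.1, zero_mul]

theorem sp_denF (_he : EvFacts) : SpDenF := by
  intro r P hP c hc p hp hpc
  by_contra hcon
  rw [Metric.mem_closure_iff] at hcon
  push Not at hcon
  obtain ⟨ε, hε, hcon⟩ := hcon
  have hcr : ‖c.1‖ < r := mem_ball_zero_iff.1 c.2
  set Q : MvPolynomial (Fin 4) ℂ := MvPolynomial.map (evR c) P with hQ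
  have hQnf : NF Q := fun a ha => hP a (support_map_subset _ _ ha)
  have hev : ∀ (v : Fin 4 → ℂ) (y : ℂ), evP P (A4.pp c.1 v y) =
      eval ![v 0, v 1, v 2, y] Q := by
    intro v y
    have h5 : ‖A4.pp c.1 v y 5‖ < r := hcr
    unfold evP evQ
    rw [dif_pos h5, hQ, eval_map]
    congr 1
  have hN : ∀ v : Fin 4 → ℂ,
      eval v (A4.p0 Q) ^ 2 + eval v (A4.p1 Q) ^ 2 * (v 2 ^ 3 + A4.bb c.1 v) = 0 := by
    set n : (Fin 4 → ℂ) → ℂ := fun v =>
      eval v (A4.p0 Q) ^ 2 + eval v (A4.p1 Q) ^ 2 * (v 2 ^ 3 + A4.bb c.1 v) with hn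
    have hX : ∀ i : Fin 4, AnalyticOnNhd ℂ (fun v : Fin 4 → ℂ => v i) univ := fun i v _ =>
      (ContinuousLinearMap.proj (R := ℂ) (φ := fun _ : Fin 4 => ℂ) i).analyticAt v
    have hpol : ∀ R : MvPolynomial (Fin 4) ℂ,
        AnalyticOnNhd ℂ (fun v : Fin 4 → ℂ => eval v R) univ := fun R =>
      AnalyticOnNhd.eval_mvPolynomial R
    have hbb : AnalyticOnNhd ℂ (fun v : Fin 4 → ℂ => A4.bb c.1 v) univ := by
      unfold A4.bb
      exact ((((analyticOnNhd_const.mul ((hX 1).pow 11)).add ((hX 0).mul ((hX 1).pow 10))).add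
        (((hX 0).pow 12).mul (hX 1))).sub analyticOnNhd_const).sub ((hX 1).pow 9)
    have hna : AnalyticOnNhd ℂ n univ :=
      ((hpol _).pow 2).add (((hpol _).pow 2).mul (((hX 2).pow 3).add hbb))
    have hcont : Continuous (fun v : Fin 4 → ℂ => v 2 ^ 3 + A4.bb c.1 v) := by
      unfold A4.bb
      fun_prop
    obtain ⟨δ, hδ, hδ'⟩ := (Metric.continuous_iff.1 hcont) (affPt p) (ε ^ 2) (by positivity)
    have hy : p 4 ^ 2 = -((affPt p) 2 ^ 3 + A4.bb c.1 (affPt p)) := by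
      have h1 := A4.G_pp (p 5) (affPt p) (p 4)
      rw [A4.pp_self hp.2.1, hp.1, hpc] at h1
      exact eq_neg_of_add_eq_zero_left h1.symm
    have hz : ∀ v ∈ Metric.ball (affPt p) (min δ ε), n v = 0 := by
      intro v hv
      have hv1 : dist v (affPt p) < δ := lt_of_lt_of_le hv (min_le_left _ _)
      have hv2 : dist v (affPt p) < ε := lt_of_lt_of_le hv (min_le_right _ _)
      obtain ⟨y, hy1, hy2⟩ := A4.root (p 4) _ (-(v 2 ^ 3 + A4.bb c.1 v)) hy
      have hyd : ‖y - p 4‖ < ε := by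
        have h1 : ‖y - p 4‖ ^ 2 < ε ^ 2 := by
          refine lt_of_le_of_lt hy2 ?_
          have h2 := hδ' v hv1
          rw [dist_eq_norm] at h2
          rw [← norm_neg]
          refine lt_of_eq_of_lt ?_ h2
          congr 1
          ring
        exact lt_of_pow_lt_pow_left₀ 2 hε.le h1
      have hmem : A4.pp c.1 v y ∈ Vaff r := by
        refine ⟨?_, rfl, hcr⟩
        rw [A4.G_pp, hy1]
        ring
      have hd : dist p (A4.pp c.1 v y) < ε := by
        rw [dist_comm, dist_pi_lt_iff hε]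
        intro i
        fin_cases i
        · show dist (1 : ℂ) (p 0) < ε
          rw [hp.2.1, dist_self]
          exact hε
        · exact lt_of_le_of_lt (dist_le_pi_dist v (affPt p) 0) hv2
        · exact lt_of_le_of_lt (dist_le_pi_dist v (affPt p) 1) hv2
        · exact lt_of_le_of_lt (dist_le_pi_dist v (affPt p) 2) hv2
        · show dist y (p 4) < ε
          rw [dist_eq_norm]
          exact hyd
        · show dist c.1 (p 5) < ε
          rw [hpc, dist_self]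
          exact hε
      have h0 : evP P (A4.pp c.1 v y) = 0 := by
        by_contra hne
        exact absurd hd (not_lt.2 (hcon _ ⟨hmem, rfl, hne⟩))
      rw [hev, A4.decomp Q hQnf, map_add, map_mul, eval_X,
        A4.eval_p0 Q ![v 0, v 1, v 2, y] v rfl rfl rfl,
        A4.eval_p1 Q ![v 0, v 1, v 2, y] v rfl rfl rfl] at h0
      have h0' : eval v (A4.p0 Q) + eval v (A4.p1 Q) * y = 0 := h0
      show eval v (A4.p0 Q) ^ 2 + eval v (A4.p1 Q) ^ 2 * (v 2 ^ 3 + A4.bb c.1 v) = 0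
      linear_combination (eval v (A4.p0 Q) - eval v (A4.p1 Q) * y) * h0' +
        eval v (A4.p1 Q) ^ 2 * hy1
    have := C.eq_of_dense hna isPreconnected_univ Metric.isOpen_ball
      ⟨affPt p, Metric.mem_ball_self (lt_min hδ hε), mem_univ _⟩ hz
    exact fun v => this v (mem_univ v)
  have hQ0 := A4.alg Q hQnf (A4.bb c.1) (fun v v' h0 h1 => by rw [A4.bb, A4.bb, h0, h1]) hN
  obtain ⟨a, ha⟩ := hc
  apply ha
  have := congrArg (coeff a) hQ0
  rw [hQ, coeff_map, coeff_zero] at this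
  exact this

theorem sp_den (hn : SpNf) (hc : SpCls) (hF : SpDenF) : SpDen := by
  intro r hr P hP p hp
  obtain ⟨P', hP', H, hH⟩ := hn (AnR r) (tR r) P
  have hP'0 : P' ≠ 0 := by
    rintro rfl
    exact hP ((hc r P).2 ⟨H, by rw [← hH, sub_zero]⟩)
  have hPP : ∀ p' ∈ Vaff r, evP P p' = evP P' p' := by
    intro p' hp'
    have h1 : P = P' + gAff (tR r) * H := by
      rw [← hH]
      ring
    rw [h1, A4.evP_add, A4.evP_mul, A4.evP_gAff p' hp'.2.1 hp'.2.2, hp'.1, zero_mul, add_zero]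
  obtain ⟨a, ha⟩ : ∃ a, P'.coeff a ≠ 0 := by
    by_contra hcon
    push Not at hcon
    exact hP'0 (MvPolynomial.ext _ _ fun a => by rw [hcon a, coeff_zero])
  obtain ⟨f, hf, hf'⟩ := AnR.exists_fun (P'.coeff a)
  have hne : ∃ s ∈ Metric.ball (0 : ℂ) r, f s ≠ 0 := by
    by_contra hcon
    push Not at hcon
    refine ha (Subtype.ext (funext fun s => ?_))
    rw [hf' s]
    exact hcon s.1 s.2
  have hcl := C.subset_closure hf Metric.isOpen_ball (C.preconn_ball 0 r) hne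
  have hp5 : p 5 ∈ Metric.ball (0 : ℂ) r := by simpa using hp.2.2
  have hpcl := hcl hp5
  rw [← closure_closure, Metric.mem_closure_iff]
  intro ε hε
  rw [Metric.mem_closure_iff] at hpcl
  set W : ℝ := ‖p 2‖ ^ 11 + 1 with hW
  have hWpos : 0 < W := by positivity
  obtain ⟨c, ⟨hcb, hcf⟩, hcd⟩ := hpcl (min ε (ε ^ 2 / W)) (lt_min hε (by positivity))
  have hcd1 : dist (p 5) c < ε := lt_of_lt_of_le hcd (min_le_left _ _)
  have hcd2 : dist (p 5) c < ε ^ 2 / W := lt_of_lt_of_le hcd (min_le_right _ _)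
  have hy : p 4 ^ 2 = -((affPt p) 2 ^ 3 + A4.bb (p 5) (affPt p)) := by
    have h1 := A4.G_pp (p 5) (affPt p) (p 4)
    rw [A4.pp_self hp.2.1, hp.1] at h1
    exact eq_neg_of_add_eq_zero_left h1.symm
  obtain ⟨y, hy1, hy2⟩ := A4.root (p 4) _ (-((affPt p) 2 ^ 3 + A4.bb c (affPt p))) hy
  have hyd : ‖y - p 4‖ < ε := by
    have h1 : ‖y - p 4‖ ^ 2 < ε ^ 2 := by
      refine lt_of_le_of_lt hy2 ?_
      have h2 : -((affPt p) 2 ^ 3 + A4.bb c (affPt p)) - -((affPt p) 2 ^ 3 +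
          A4.bb (p 5) (affPt p)) = (p 5 - c) * p 2 ^ 11 := by
        have : affPt p 1 = p 2 := rfl
        unfold A4.bb
        rw [this]
        ring
      rw [h2, norm_mul, norm_pow, ← dist_eq_norm]
      calc dist (p 5) c * ‖p 2‖ ^ 11 ≤ dist (p 5) c * W :=
            mul_le_mul_of_nonneg_left (by rw [hW]; linarith) dist_nonneg
        _ < ε ^ 2 / W * W := mul_lt_mul_of_pos_right hcd2 hWpos
        _ = ε ^ 2 := div_mul_cancel₀ _ hWpos.ne'
    exact lt_of_pow_lt_pow_left₀ 2 hε.le h1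
  have hcr : ‖c‖ < r := by simpa using hcb
  have hmem : A4.pp c (affPt p) y ∈ Vaff r := by
    refine ⟨?_, rfl, hcr⟩
    rw [A4.G_pp, hy1]
    ring
  refine ⟨A4.pp c (affPt p) y, ?_, ?_⟩
  · have h1 := hF r P' hP' ⟨c, hcb⟩ ⟨a, by
      show (P'.coeff a).1 ⟨c, hcb⟩ ≠ 0
      rw [hf']
      exact hcf⟩ _ hmem rfl
    refine closure_mono ?_ h1
    rintro p' ⟨h2, -, h3⟩
    exact ⟨h2, by rw [hPP p' h2]; exact h3⟩
  · rw [dist_comm, dist_pi_lt_iff hε]
    intro i
    fin_cases i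
    · show dist (1 : ℂ) (p 0) < ε
      rw [hp.2.1, dist_self]
      exact hε
    · show dist (p 1) (p 1) < ε
      rw [dist_self]
      exact hε
    · show dist (p 2) (p 2) < ε
      rw [dist_self]
      exact hε
    · show dist (p 3) (p 3) < ε
      rw [dist_self]
      exact hε
    · show dist y (p 4) < ε
      rw [dist_eq_norm]
      exact hyd
    · show dist c (p 5) < ε
      rw [dist_comm]
      exact hcd1

end Pool.Agent.KO
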