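import Pool.Agent.KO.A.Spec

/-!
# Project KO, block A, row A3: evaluation of polynomials with analytic coefficients
-/

set_option autoImplicit false
set_option maxHeartbeats 400000

namespace Pool.Agent.KO.A3

open Set Filter Topology MvPolynomial

/-- The value of a coefficient at the point `s` (zero outside of the disc). -/
noncomputable def coef {r : ℝ} (c : AnR r) (s : ℂ) : ℂ :=
  if h : ‖s‖ < r then evR ⟨s, by simpa using h⟩ c else 0

theorem coef_eq {r : ℝ} (c : AnR r) {s : ℂ} (h : ‖s‖ < r)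
    (h' : s ∈ Metric.ball (0 : ℂ) r) : coef c s = evR ⟨s, h'⟩ c := by
  rw [coef, dif_pos h]

theorem evQ_eq {r : ℝ} {n : ℕ} (P : MvPolynomial (Fin n) (AnR r)) (x : Fin n → ℂ) (s : ℂ) :
    evQ P x s = ∑ a ∈ P.support, coef (P.coeff a) s * ∏ i, x i ^ a i := by
  unfold evQ
  split_ifs with h
  · rw [eval₂_eq']
    refine Finset.sum_congr rfl fun a _ => ?_
    rw [coef_eq _ h]
  · symm
    refine Finset.sum_eq_zero fun a _ => ?_
    rw [coef, dif_neg h, zero_mul]

theorem evH_eq {r : ℝ} (m : ℕ) (P : MvPolynomial (Fin 4) (AnR r)) (p : Fin 6 → ℂ) :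
    evH m P p = ∑ a ∈ P.support, coef (P.coeff a) (p 5) *
      (p 0 ^ (m - Finsupp.weight wAff a) * ∏ i, affPt p i ^ a i) := by
  unfold evH
  split_ifs with h
  · refine Finset.sum_congr rfl fun a _ => ?_
    rw [coef_eq _ h]
  · symm
    refine Finset.sum_eq_zero fun a _ => ?_
    rw [coef, dif_neg h, zero_mul]

theorem coef_an {r : ℝ} (c : AnR r) {s : ℂ} (h : ‖s‖ < r) : AnalyticAt ℂ (coef c) s := by
  obtain ⟨F, hF, hf⟩ := AnR.exists_fun c
  have h1 : s ∈ Metric.ball (0 : ℂ) r := by simpa using h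
  refine (hF s h1).congr ?_
  filter_upwards [Metric.isOpen_ball.mem_nhds h1] with x hx
  rw [coef_eq c (by simpa using hx) hx]
  exact (hf ⟨x, hx⟩).symm

variable {E : Type*} [NormedAddCommGroup E] [NormedSpace ℂ E]

theorem evQ_an {r : ℝ} {n : ℕ} (P : MvPolynomial (Fin n) (AnR r)) (x : E → Fin n → ℂ) (s : E → ℂ)
    (e : E) (hx : ∀ i, AnalyticAt ℂ (fun e => x e i) e) (hs : AnalyticAt ℂ s e)
    (h : ‖s e‖ < r) : AnalyticAt ℂ (fun e => evQ P (x e) (s e)) e := by
  simp only [evQ_eq]
  refine Finset.analyticAt_fun_sum _ fun a _ => ?_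
  refine AnalyticAt.mul ((coef_an _ h).fun_comp hs) ?_
  exact Finset.analyticAt_fun_prod _ fun i _ => (hx i).pow _

theorem coord_an {n : ℕ} (i : Fin n) (p : Fin n → ℂ) :
    AnalyticAt ℂ (fun p : Fin n → ℂ => p i) p :=
  (ContinuousLinearMap.proj (R := ℂ) (φ := fun _ : Fin n => ℂ) i).analyticAt p

theorem aff_an (i : Fin 4) (p : Fin 6 → ℂ) : AnalyticAt ℂ (fun p => affPt p i) p := by
  fin_cases i
  · exact coord_an 1 p
  · exact coord_an 2 p
  · exact coord_an 3 p
  · exact coord_an 4 p

theorem aff_act (l : ℂ) (p : Fin 6 → ℂ) (i : Fin 4) :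
    affPt (act l p) i = l ^ wAff i * affPt p i := by
  fin_cases i <;> rfl

theorem act_five (l : ℂ) (p : Fin 6 → ℂ) : act l p 5 = p 5 := by
  simp [act, wgt]

theorem act_zero (l : ℂ) (p : Fin 6 → ℂ) : act l p 0 = l * p 0 := by
  simp [act, wgt]

theorem weight_eq (a : Fin 4 →₀ ℕ) : Finsupp.weight wAff a = ∑ i, wAff i * a i := by
  rw [Finsupp.weight_apply, Finsupp.sum_fintype _ _ (by simp)]
  refine Finset.sum_congr rfl fun i _ => ?_
  rw [smul_eq_mul, mul_comm]

theorem tR_ev {r : ℝ} (s : Metric.ball (0 : ℂ) r) : evR s (tR r) = s.1 := rfl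

end A3

open Set Filter Topology MvPolynomial A3

/-- Row A3. -/
theorem sp_ev : EvFacts where
  anQ r n P q h := by
    refine evQ_an P (fun q : (Fin n → ℂ) × ℂ => q.1) (fun q => q.2) q (fun i => ?_)
      analyticAt_snd h
    exact (coord_an i q.1).fun_comp analyticAt_fst
  anP r P p h := evQ_an P (fun p => affPt p) (fun p => p 5) p (fun i => aff_an i p)
    (coord_an 5 p) h
  anH r m P p h := by
    have h1 : evH m P = fun p => ∑ a ∈ P.support, coef (P.coeff a) (p 5) *
      (p 0 ^ (m - Finsupp.weight wAff a) * ∏ i, affPt p i ^ a i) := funext (evH_eq m P)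
    rw [h1]
    refine Finset.analyticAt_fun_sum _ fun a _ => ?_
    have h2 : AnalyticAt ℂ (fun p : Fin 6 → ℂ => coef (P.coeff a) (p 5)) p :=
      AnalyticAt.fun_comp (g := coef (P.coeff a)) (f := fun p : Fin 6 → ℂ => p 5)
        (coef_an _ h) (coord_an 5 p)
    refine AnalyticAt.mul h2 ?_
    refine AnalyticAt.mul ((coord_an 0 p).pow _) ?_
    exact Finset.analyticAt_fun_prod _ fun i _ => (aff_an i p).pow _
  gaff r p h0 h := by
    unfold evP evQ
    rw [dif_pos h]
    simp only [gAff, G, eval₂_add, eval₂_sub, eval₂_mul, eval₂_pow, eval₂_X, eval₂_C, eval₂_one,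
      tR_ev, affPt, h0]
    simp
  actH r m P hP l hl p := by
    rw [evH_eq, evH_eq, Finset.mul_sum]
    refine Finset.sum_congr rfl fun a ha => ?_
    rw [act_five, act_zero, mul_pow]
    have h1 : ∏ i, affPt (act l p) i ^ a i =
        l ^ Finsupp.weight wAff a * ∏ i, affPt p i ^ a i := by
      rw [weight_eq, ← Finset.prod_pow_eq_pow_sum, ← Finset.prod_mul_distrib]
      refine Finset.prod_congr rfl fun i _ => ?_
      rw [aff_act, mul_pow, pow_mul]
    rw [h1]
    have h2 : l ^ m = l ^ (m - Finsupp.weight wAff a) * l ^ Finsupp.weight wAff a := by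
      rw [← pow_add, Nat.sub_add_cancel (hP a ha)]
    rw [h2]
    ring
  oneH r m P p h0 := by
    unfold evP
    rw [evH_eq, evQ_eq]
    refine Finset.sum_congr rfl fun a _ => ?_
    rw [h0, one_pow, one_mul]
  zeroH r m P hm hP p h0 := by
    rw [evH_eq]
    refine Finset.sum_eq_zero fun a ha => ?_
    by_cases h : a = 0
    · subst h
      rw [map_zero, h0 0 (by decide), Nat.sub_zero, zero_pow (by omega), zero_mul, mul_zero]
    · obtain ⟨i, hi⟩ : ∃ i, a i ≠ 0 := by
        by_contra hcon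
        push Not at hcon
        exact h (Finsupp.ext hcon)
      have h1 : affPt p i = 0 := by
        fin_cases i
        · exact h0 1 (by decide)
        · exact h0 2 (by decide)
        · exact h0 3 (by decide)
        · exact h0 4 (by decide)
      rw [Finset.prod_eq_zero (Finset.mem_univ i) (by rw [h1, zero_pow hi]), mul_zero, mul_zero]
  bind r n C s p := by
    unfold evP
    unfold evQ
    split_ifs with h
    · exact eval₂Hom_bind₁ (evR ⟨p 5, by simpa using h⟩) (affPt p) s C
    · rfl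

end Pool.Agent.KO
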