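import Pool.Agent.KO.A.Spec

/-!
# Project KO, row A6: a generic linear form, projective space is Hausdorff
-/

set_option autoImplicit false

namespace Pool.Agent.KO

open Set Filter Topology

namespace A6

/-- The polynomial `∑ vᵢ Xⁱ`. -/
noncomputable def pol {N : ℕ} (v : Fin (N + 1) → ℂ) : Polynomial ℂ :=
  ∑ i : Fin (N + 1), Polynomial.monomial i.1 (v i)

theorem pol_eval {N : ℕ} (v : Fin (N + 1) → ℂ) (s : ℂ) :
    (pol v).eval s = ∑ i : Fin (N + 1), s ^ i.1 * v i := by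
  unfold pol
  rw [Polynomial.eval_finsetSum]
  refine Finset.sum_congr rfl fun i _ => ?_
  rw [Polynomial.eval_monomial, mul_comm]

theorem pol_coeff {N : ℕ} (v : Fin (N + 1) → ℂ) (j : Fin (N + 1)) : (pol v).coeff j.1 = v j := by
  unfold pol
  rw [Polynomial.finsetSum_coeff, Finset.sum_eq_single j]
  · rw [Polynomial.coeff_monomial, if_pos rfl]
  · intro i _ hij
    rw [Polynomial.coeff_monomial, if_neg]
    exact fun h => hij (Fin.ext h)
  · intro h
    exact absurd (Finset.mem_univ j) h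

theorem pol_ne {N : ℕ} {v : Fin (N + 1) → ℂ} (hv : v ≠ 0) : pol v ≠ 0 := by
  intro h0
  apply hv
  funext j
  rw [← pol_coeff v j, h0, Polynomial.coeff_zero]
  rfl

/-- The projection to projective space. -/
noncomputable def pr (N : ℕ) (v : {v : Fin (N + 1) → ℂ // v ≠ 0}) : PN N := Projectivization.mk ℂ v.1 v.2

theorem pr_eq_iff {N : ℕ} (v w : {v : Fin (N + 1) → ℂ // v ≠ 0}) :
    pr N v = pr N w ↔ ∃ a : ℂˣ, a • w.1 = v.1 :=
  Projectivization.mk_eq_mk_iff ℂ v.1 w.1 v.2 w.2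

theorem pr_surj (N : ℕ) : Function.Surjective (pr N) := by
  intro x
  exact ⟨⟨x.rep, x.rep_nonzero⟩, x.mk_rep⟩

theorem pr_cont (N : ℕ) : Continuous (pr N) :=
  continuous_coinduced_rng (t := (inferInstance : TopologicalSpace
    {v : Fin (N + 1) → ℂ // v ≠ 0}))

theorem isOpen_PN_iff {N : ℕ} (U : Set (PN N)) : IsOpen U ↔ IsOpen (pr N ⁻¹' U) := Iff.rfl

theorem pr_open (N : ℕ) : IsOpenMap (pr N) := by
  intro U hU
  rw [isOpen_PN_iff]
  have hs : pr N ⁻¹' (pr N '' U) = ⋃ c : ℂˣ, {v : {v : Fin (N + 1) → ℂ // v ≠ 0} |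
      (⟨c • v.1, (smul_ne_zero_iff_ne c).2 v.2⟩ : {v : Fin (N + 1) → ℂ // v ≠ 0}) ∈ U} := by
    ext v
    simp only [mem_preimage, mem_image, mem_iUnion, mem_ofPred_eq]
    constructor
    · rintro ⟨w, hw, h⟩
      obtain ⟨a, ha⟩ := (pr_eq_iff w v).1 h
      refine ⟨a, ?_⟩
      have : (⟨a • v.1, (smul_ne_zero_iff_ne a).2 v.2⟩ : {v : Fin (N + 1) → ℂ // v ≠ 0}) = w :=
        Subtype.ext ha
      rw [this]
      exact hw
    · rintro ⟨a, ha⟩
      exact ⟨_, ha, (pr_eq_iff _ _).2 ⟨a, rfl⟩⟩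
  rw [hs]
  refine isOpen_iUnion fun c => hU.preimage ?_
  refine Continuous.subtype_mk ?_ _
  exact continuous_subtype_val.const_smul c

theorem closed_rel (N : ℕ) :
    IsClosed {q : {v : Fin (N + 1) → ℂ // v ≠ 0} × {v : Fin (N + 1) → ℂ // v ≠ 0} |
      pr N q.1 = pr N q.2} := by
  have hs : {q : {v : Fin (N + 1) → ℂ // v ≠ 0} × {v : Fin (N + 1) → ℂ // v ≠ 0} |
      pr N q.1 = pr N q.2} = ⋂ i : Fin (N + 1), ⋂ j : Fin (N + 1),
        {q | q.1.1 i * q.2.1 j = q.1.1 j * q.2.1 i} := by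
    ext ⟨v, w⟩
    simp only [mem_iInter, mem_ofPred_eq]
    rw [pr_eq_iff]
    constructor
    · rintro ⟨a, ha⟩ i j
      rw [← ha]
      simp only [Pi.smul_apply, Units.smul_def, smul_eq_mul]
      ring
    · intro h
      obtain ⟨j, hj⟩ := Function.ne_iff.1 w.2
      have hj' : w.1 j ≠ 0 := hj
      have hv : ∀ i, v.1 i = v.1 j / w.1 j * w.1 i := by
        intro i
        rw [div_mul_eq_mul_div, eq_div_iff hj']
        exact h i j
      have hvj : v.1 j / w.1 j ≠ 0 := by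
        intro h0
        apply v.2
        funext i
        rw [hv i, h0, zero_mul]
        rfl
      refine ⟨Units.mk0 _ hvj, ?_⟩
      funext i
      rw [Pi.smul_apply, Units.smul_def, smul_eq_mul, Units.val_mk0]
      exact (hv i).symm
  rw [hs]
  refine isClosed_iInter fun i => isClosed_iInter fun j => ?_
  have h1 : ∀ i : Fin (N + 1), Continuous
      (fun q : {v : Fin (N + 1) → ℂ // v ≠ 0} × {v : Fin (N + 1) → ℂ // v ≠ 0} => q.1.1 i) :=
    fun i => (continuous_apply i).comp (continuous_subtype_val.comp continuous_fst)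
  have h2 : ∀ i : Fin (N + 1), Continuous
      (fun q : {v : Fin (N + 1) → ℂ // v ≠ 0} × {v : Fin (N + 1) → ℂ // v ≠ 0} => q.2.1 i) :=
    fun i => (continuous_apply i).comp (continuous_subtype_val.comp continuous_snd)
  exact isClosed_eq ((h1 i).mul (h2 j)) ((h1 j).mul (h2 i))

end A6

/-- A linear form that does not vanish on a countable set of nonzero vectors. -/
theorem sp_lin : SpLin := by
  intro N E hE hne
  have hc : (⋃ v ∈ E, {s : ℂ | (A6.pol v).IsRoot s}).Countable :=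
    hE.biUnion fun v hv => (Polynomial.finite_setOfPred_isRoot (A6.pol_ne (hne v hv))).countable
  have hex : ∃ s : ℂ, s ∉ ⋃ v ∈ E, {s : ℂ | (A6.pol v).IsRoot s} := by
    by_contra hcon
    push Not at hcon
    exact not_countable_complex (hc.mono fun s _ => hcon s)
  obtain ⟨s, hs⟩ := hex
  refine ⟨fun i => s ^ i.1, fun v hv h0 => hs ?_⟩
  refine mem_biUnion hv ?_
  show (A6.pol v).eval s = 0
  rw [A6.pol_eval]
  exact h0

/-- Projective space is Hausdorff. -/
theorem sp_t2 : SpT2 := by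
  intro N
  exact (t2Space_iff_of_isOpenQuotientMap
    ⟨A6.pr_surj N, A6.pr_cont N, A6.pr_open N⟩).2 (A6.closed_rel N)

end Pool.Agent.KO
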