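import Pool.Agent.KO.A.Res

/-!
# Project KO, block A: assembly
-/

set_option autoImplicit false

namespace Pool.Agent.KO

open Set Filter Topology MvPolynomial

theorem evP_def {r : ℝ} (P : MvPolynomial (Fin 4) (AnR r)) {p : Fin 6 → ℂ} (h : ‖p 5‖ < r) :
    evP P p = eval₂Hom (evR ⟨p 5, by simpa using h⟩) (affPt p) P := by
  unfold evP evQ
  rw [dif_pos h]
  rfl

theorem evP_mul {r : ℝ} (P Q : MvPolynomial (Fin 4) (AnR r)) (p : Fin 6 → ℂ) :
    evP (P * Q) p = evP P p * evP Q p := by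
  by_cases h : ‖p 5‖ < r
  · rw [evP_def _ h, evP_def _ h, evP_def _ h, map_mul]
  · unfold evP evQ
    rw [dif_neg h, dif_neg h, dif_neg h, zero_mul]

theorem evP_prod_ne {r : ℝ} {ι : Type} (s : Finset ι) (Q : ι → MvPolynomial (Fin 4) (AnR r))
    {p : Fin 6 → ℂ} (h : ‖p 5‖ < r) (hp : evP (∏ i ∈ s, Q i) p ≠ 0) : ∀ i ∈ s, evP (Q i) p ≠ 0 := by
  rw [evP_def _ h, map_prod, Finset.prod_ne_zero_iff] at hp
  intro i hi
  rw [evP_def _ h]
  exact hp i hi

theorem exists_good (he : EvFacts) (hden : SpDen) {r : ℝ} {D : Set (Fin 6 → ℂ)}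
    {f : (Fin 6 → ℂ) → ℂ} (hD : GA.MData r D f) {r1 : ℝ} [hr : Fact (0 < r1)] (h1 : r1 ≤ r)
    {Q : MvPolynomial (Fin 4) (AnR r1)} (hQ : cls Q ≠ 0) :
    ∃ p ∈ D, p 0 = 1 ∧ ‖p 5‖ < r1 ∧ evP Q p ≠ 0 := by
  have hp0 : (![1, 0, 0, 0, -1, 0] : Fin 6 → ℂ) ∈ Vaff r1 := by
    refine ⟨?_, rfl, ?_⟩
    · simp [G]
    · simpa using hr.out
  have hg : (![1, 0, 0, 0, -1, 0] : Fin 6 → ℂ) ∈ Gamᶜ := by
    rintro ⟨-, -, -, h4⟩
    have h5 : (-1 : ℂ) = 1 ^ 33 := h4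
    norm_num at h5
  obtain ⟨p2, hp2g, hp2, hp2Q⟩ := mem_closure_iff.1 (hden r1 Q hQ hp0) _
    isClosed_Gam.isOpen_compl hg
  have hp2C : p2 ∈ GA.ConeR r :=
    ⟨⟨hp2.1, ⟨0, by decide, by rw [hp2.2.1]; exact one_ne_zero⟩,
      (hp2.2.2.trans_le h1).trans_le hD.le_one⟩, hp2g, hp2.2.2.trans_le h1⟩
  have hN : ContinuousAt (fun p : Fin 6 → ℂ => act (p 0)⁻¹ p) p2 := by
    have h3 : ContinuousAt (fun p : Fin 6 → ℂ => ((p 0)⁻¹, p)) p2 := by
      refine ContinuousAt.prodMk ?_ continuousAt_id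
      refine ContinuousAt.inv₀ (continuous_apply 0).continuousAt ?_
      rw [hp2.2.1]
      exact one_ne_zero
    exact continuous_act.continuousAt.comp h3
  have hN2 : act (p2 0)⁻¹ p2 = p2 := by rw [hp2.2.1, inv_one, act_one]
  have hev : ∀ᶠ p in 𝓝 p2, evP Q (act (p 0)⁻¹ p) ≠ 0 := by
    refine (ContinuousAt.comp (g := evP Q) ?_ hN).eventually_ne ?_
    · rw [hN2]
      exact (he.anP r1 Q p2 hp2.2.2).continuousAt
    · simp only [Function.comp_apply, hN2]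
      exact hp2Q
  have hev0 : ∀ᶠ p : Fin 6 → ℂ in 𝓝 p2, p 0 ≠ 0 := by
    refine (continuous_apply 0).continuousAt.eventually_ne ?_
    rw [hp2.2.1]
    exact one_ne_zero
  have hev5 : ∀ᶠ p : Fin 6 → ℂ in 𝓝 p2, ‖p 5‖ < r1 :=
    (continuous_apply (5 : Fin 6)).norm.continuousAt.eventually_lt continuousAt_const hp2.2.2
  obtain ⟨p, ⟨⟨hpa, hpb⟩, hpc⟩, hpD⟩ :=
    ((mem_closure_iff_frequently.1 (hD.dense hp2C)).and_eventually
      ((hev.and hev0).and hev5)).exists.imp fun p hp => And.intro hp.2 hp.1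
  refine ⟨act (p 0)⁻¹ p, hD.stable _ (inv_ne_zero hpb) p hpD, ?_, ?_, hpa⟩
  · rw [act_zero', inv_mul_cancel₀ hpb]
  · rw [act_five']
    exact hpc

theorem sum_fL {F : Flip} {r : ℝ} {N : ℕ} {S : Set (PN N × ℂ)} (b : Bimer F.O F.g r S)
    (l : Fin (N + 1) → ℂ) {p : Fin 6 → ℂ} (hp : p ∈ DL b l) : ∑ i, l i * fL b l i p = 1 := by
  have h : bl b l p ≠ 0 := hp
  have : ∑ i, l i * fL b l i p = (∑ i, l i * bx b p i) / bl b l p := by
    unfold fL
    rw [Finset.sum_div]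
    exact Finset.sum_congr rfl fun i _ => by ring
  rw [this]
  exact div_self h

/-- **Assembly of block A.** -/
theorem sp_sec (hn : SpNf) (hnu : SpNfU) (hc : SpCls) (he : EvFacts) (hz : SpZer)
    (hden : SpDen) (hu : SpUfd) (ht : SpT2) (hm : SpMer) (hmap : SpMap) (hp : SpPos)
    (hG : GA.GMain) (hX : ∀ F : Flip, F.XaFacts) (hP : ∀ N, PFacts N)
    (hd : ∀ (r : ℝ) [Fact (0 < r)], IsDomain (Raff (tK r)))
    (hU : ∀ (r : ℝ) [Fact (0 < r)], UniqueFactorizationMonoid (Raff (tK r))) : SpSec := by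
  classical
  intro F r N S b hr hr1
  obtain ⟨l, hl⟩ := hm F r N S b hr hr1 (hX F) (hP N)
  have hGi := fun i => hG r (DL b l) (fL b l i) (hl i)
  choose ρ hρ hρr P0 Q0 hQ0 hPQ using hGi
  obtain ⟨i0, -, hi0⟩ := Finset.exists_min_image Finset.univ ρ Finset.univ_nonempty
  set r1 : ℝ := ρ i0 with hr1def
  have hle : ∀ i, r1 ≤ ρ i := fun i => hi0 i (Finset.mem_univ i)
  have fact : Fact (0 < r1) := ⟨hρ i0⟩
  have hr1r : r1 ≤ r := hρr i0
  set P : Fin (N + 1) → MvPolynomial (Fin 4) (AnR r1) := fun i => map (resR (hle i)) (P0 i)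
    with hPdef
  set Q : Fin (N + 1) → MvPolynomial (Fin 4) (AnR r1) := fun i => map (resR (hle i)) (Q0 i)
    with hQdef
  have hQ : ∀ i, cls (Q i) ≠ 0 := fun i h =>
    not_dvd_map hn hnu (hle i) fact.out (hQ0 i) ((hc r1 _).1 h)
  have hPQ' : ∀ i, ∀ p ∈ DL b l, p 0 = 1 → ‖p 5‖ < r1 →
      evP (Q i) p * fL b l i p = evP (P i) p := by
    intro i p hpD hp0 hp5
    have h5 : p 5 ∈ Metric.ball (0 : ℂ) (ρ i) := by simpa using hp5.trans_le (hle i)
    have h6 := hPQ i p hpD hp0 h5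
    have h7 : ‖p 5‖ < ρ i := hp5.trans_le (hle i)
    have e1 : evP (Q i) p = eval₂ (evR ⟨p 5, h5⟩) (affPt p) (Q0 i) := by
      unfold evP
      rw [hQdef, evQ_map _ _ _ hp5]
      unfold evQ
      rw [dif_pos h7]
    have e2 : evP (P i) p = eval₂ (evR ⟨p 5, h5⟩) (affPt p) (P0 i) := by
      unfold evP
      rw [hPdef, evQ_map _ _ _ hp5]
      unfold evQ
      rw [dif_pos h7]
    rw [e1, e2]
    exact h6
  have hdom := hd r1
  have hufm := hU r1
  have hQp : cls (∏ i, Q i) ≠ 0 := by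
    rw [map_prod, Finset.prod_ne_zero_iff]
    exact fun i _ => hQ i
  have hPne : ∃ i, cls (P i) ≠ 0 := by
    by_contra hcon
    push Not at hcon
    obtain ⟨p, hpD, hp0, hp5, hpQ⟩ := exists_good he hden (hl 0) hr1r hQp
    have hG0 : p ∈ Vaff r1 := by
      refine ⟨?_, hp0, hp5⟩
      obtain ⟨O, -, hO⟩ := (hl 0).rel
      rw [hO] at hpD
      exact hpD.2.1.1
    have h3 : ∀ i, fL b l i p = 0 := by
      intro i
      have h4 := hPQ' i p hpD hp0 hp5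
      rw [hz r1 _ (hcon i) p hG0] at h4
      exact (mul_eq_zero.1 h4).resolve_left
        (evP_prod_ne Finset.univ Q hp5 hpQ i (Finset.mem_univ i))
    have h5 := sum_fL b l hpD
    simp [h3] at h5
  obtain ⟨s, hs1, hs2, hs3, i1, a1, hs4⟩ := hu r1 N P Q hQ hPne
  -- the degree
  set T : Finset ℕ := Finset.univ.biUnion fun i =>
    (s i).support.image fun a => Finsupp.weight wAff a with hT
  have ha1 : a1 ∈ (s i1).support := by
    rw [mem_support_iff]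
    rintro h
    rw [h, map_zero] at hs4
    exact hs4 rfl
  have hTne : T.Nonempty := ⟨Finsupp.weight wAff a1, by
    rw [hT, Finset.mem_biUnion]
    exact ⟨i1, Finset.mem_univ _, Finset.mem_image_of_mem _ ha1⟩⟩
  set m : ℕ := T.max' hTne with hmdef
  have hdeg : ∀ i, ∀ a ∈ (s i).support, Finsupp.weight wAff a ≤ m := by
    intro i a ha
    refine Finset.le_max' _ _ ?_
    rw [hT, Finset.mem_biUnion]
    exact ⟨i, Finset.mem_univ _, Finset.mem_image_of_mem _ ha⟩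
  have htop : ∃ i, ∃ a ∈ (s i).support, Finsupp.weight wAff a = m := by
    have h := Finset.max'_mem T hTne
    rw [← hmdef] at h
    rw [hT, Finset.mem_biUnion] at h
    obtain ⟨i, -, hi⟩ := h
    obtain ⟨a, ha, ham⟩ := Finset.mem_image.1 hi
    exact ⟨i, a, ha, ham⟩
  -- the radius
  obtain ⟨f, hf, hff⟩ := AnR.exists_fun ((s i1).coeff a1)
  have hf0 : f 0 ≠ 0 := by
    have : evR ⟨0, by simpa using fact.out⟩ ((s i1).coeff a1) = f 0 := hff _
    rwa [this] at hs4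
  have hfc : ∀ᶠ z in 𝓝 (0 : ℂ), f z ≠ 0 :=
    (hf 0 (by simpa using fact.out)).continuousAt.eventually_ne hf0
  obtain ⟨ε, hε, hεf⟩ := Metric.eventually_nhds_iff.1 hfc
  have hnz : ∀ c : Metric.ball (0 : ℂ) r1, ‖c.1‖ < min ε r1 →
      ∃ i a, evR c ((s i).coeff a) ≠ 0 := by
    intro c hcm
    refine ⟨i1, a1, ?_⟩
    have : evR c ((s i1).coeff a1) = f c.1 := hff _
    rw [this]
    refine hεf ?_
    rw [dist_zero_right]
    exact hcm.trans_le (min_le_left _ _)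
  have hmap' := hmap F r N S b hr hr1 (hX F) (hP N) (ht N) l hl r1 hr1r hdom P Q hQ hPQ' s hs2 m
    hdeg
  have hmap2 : ∀ p : Flip.M1, ‖p.1 5‖ < min ε r1 → ∀ h : F.pi1 p ∈ {x | ‖F.g x‖ < r} \ b.A,
      ∀ hs : (fun i => evH m (s i) p.1) ≠ 0,
        (b.e.toFun ⟨F.pi1 p, h⟩).1.1 = Projectivization.mk ℂ (fun i => evH m (s i) p.1) hs :=
    fun p hp5 h hs => hmap' p (hp5.trans_le (min_le_right _ _)) h hs
  have hpos : 0 < min ε r1 := lt_min hε fact.out
  have hm1 := hp F r N S b hr hr1 (hX F) (hP N) r1 (min ε r1) hpos (min_le_right _ _) hr1r s hs1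
    m hdeg hnz hmap2
  exact ⟨{ r1 := r1, r2 := min ε r1, pos1 := fact, pos := hpos, le := min_le_right _ _,
           le_r := hr1r, s := s, m := m, one_le := hm1, nf := hs1, deg := hdeg, top := htop,
           cop := hs3, nz := hnz, map := hmap2 }⟩

end Pool.Agent.KO
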