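import Pool.Agent.KO.A.Spec

/-!
# Project KO, block A, row A9: the bimeromorphic map is given by the polynomials
-/

set_option autoImplicit false

namespace Pool.Agent.KO

open Set Filter Topology MvPolynomial

namespace A9

theorem evP_hom {r : ℝ} {p : Fin 6 → ℂ} (h : ‖p 5‖ < r) (P : MvPolynomial (Fin 4) (AnR r)) :
    evP P p = eval₂Hom (evR ⟨p 5, by simpa using h⟩) (affPt p) P := by
  unfold evP evQ
  rw [dif_pos h]
  rfl

theorem bx_spec {F : Flip} {r : ℝ} {N : ℕ} {S : Set (PN N × ℂ)} (b : Bimer F.O F.g r S)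
    {l : Fin (N + 1) → ℂ} {p : Fin 6 → ℂ} (hp : p ∈ DL b l) :
    ∃ (h : p ∈ Cone ∧ p ∉ Gam) (h' : F.pi1 ⟨p, h⟩ ∈ {x | ‖F.g x‖ < r} \ b.A),
      bx b p = (b.e.toFun ⟨F.pi1 ⟨p, h⟩, h'⟩).1.1.rep := by
  by_cases H : ∃ h : p ∈ Cone ∧ p ∉ Gam, F.pi1 ⟨p, h⟩ ∈ {x | ‖F.g x‖ < r} \ b.A
  · refine ⟨H.choose, H.choose_spec, ?_⟩
    unfold bx
    rw [dif_pos H]
  · exfalso
    apply hp
    unfold bl bx
    rw [dif_neg H]
    simp

theorem mk_eq_of_cross {N : ℕ} {v w : Fin (N + 1) → ℂ} (hv : v ≠ 0) (hw : w ≠ 0)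
    (h : ∀ i j, v i * w j = v j * w i) :
    Projectivization.mk ℂ v hv = Projectivization.mk ℂ w hw := by
  rw [Projectivization.mk_eq_mk_iff']
  obtain ⟨j, hj⟩ := Function.ne_iff.1 hw
  have hj' : w j ≠ 0 := hj
  refine ⟨v j / w j, ?_⟩
  funext i
  rw [Pi.smul_apply, smul_eq_mul, div_mul_eq_mul_div, div_eq_iff hj']
  exact (h i j).symm

/-- The set of the vectors whose class is in a given open set. -/
theorem isOpen_class {N : ℕ} (hP : PFacts N) {U : Set (PN N)} (hU : IsOpen U) :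
    IsOpen {v : Fin (N + 1) → ℂ | ∃ hv : v ≠ 0, Projectivization.mk ℂ v hv ∈ U} := by
  have h1 : Continuous (fun v : {v : Fin (N + 1) → ℂ // v ≠ 0} =>
      (Projectivization.mk ℂ v.1 v.2 : PN N)) :=
    continuous_fst.comp (hP.cont.comp (Continuous.prodMk_left (0 : ℂ)))
  have h2 := hU.preimage h1
  have h3 : IsOpen {v : Fin (N + 1) → ℂ | v ≠ 0} := isOpen_ne
  have h4 := h3.isOpenMap_subtype_val _ h2
  convert h4 using 1
  ext v
  simp only [mem_ofPred_eq, mem_image, mem_preimage, Subtype.exists, exists_and_right,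
    exists_eq_right]

end A9

open A9

theorem sp_map (he : EvFacts) (hz : SpZer) (hd : SpDen) : SpMap := by
  intro F r N S b hr hr1 hX hPN hT2 l hM r1 hr1' hle hdom P Q hQ hPQ s hs m hm p hp5 h hsne
  by_contra hne
  obtain ⟨U1, U2, hU1, hU2, hm1, hm2, hdisj⟩ := t2_separation hne
  -- the neighbourhood of `p`
  have hc1 : Continuous (fun y : ↥({x | ‖F.g x‖ < r} \ b.A) => (b.e.toFun y).1.1) :=
    continuous_fst.comp (continuous_subtype_val.comp b.e.toHomeomorph.continuous)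
  obtain ⟨O', hO', hO'eq⟩ := isOpen_induced_iff.1 (hU1.preimage hc1)
  have hmO' : F.pi1 p ∈ O' := by
    have : (⟨F.pi1 p, h⟩ : ↥({x | ‖F.g x‖ < r} \ b.A)) ∈ Subtype.val ⁻¹' O' := by
      rw [hO'eq]
      exact hm1
    exact this
  have hO1 : F.pi1 ⁻¹' O' ∈ 𝓝 p := (hO'.preimage hX.top.cont1).mem_nhds hmO'
  obtain ⟨W1, hW1, hW1sub⟩ := (mem_nhds_subtype _ p _).1 hO1
  have hcs : ContinuousAt (fun p' : Fin 6 → ℂ => fun i => evH m (s i) p') p.1 :=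
    continuousAt_pi.2 fun i => (he.anH r1 m (s i) p.1 hp5).continuousAt
  have hW2 : {p' : Fin 6 → ℂ | ∃ hv : (fun i => evH m (s i) p') ≠ 0,
      Projectivization.mk ℂ (fun i => evH m (s i) p') hv ∈ U2} ∈ 𝓝 p.1 :=
    hcs ((isOpen_class hPN hU2).mem_nhds ⟨hsne, hm2⟩)
  have hW3 : Gamᶜ ∈ 𝓝 p.1 := isClosed_Gam.isOpen_compl.mem_nhds p.2.2
  have hW4 : {p' : Fin 6 → ℂ | ‖p' 5‖ < r1} ∈ 𝓝 p.1 :=
    (isOpen_lt (continuous_norm.comp (continuous_apply 5)) continuous_const).mem_nhds hp5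
  obtain ⟨W, hWsub, hWo, hpW⟩ := mem_nhds_iff.1 (inter_mem hW1 (inter_mem hW2 (inter_mem hW3 hW4)))
  -- Step 1
  have hWm : Subtype.val ⁻¹' W ∈ 𝓝 p := (hWo.preimage continuous_subtype_val).mem_nhds hpW
  have himg : F.pi1 '' (Subtype.val ⁻¹' W) ∈ 𝓝 (F.pi1 p) := hX.top.open1.image_mem_nhds hWm
  obtain ⟨x1, hx1, p1, hp1W, rfl⟩ := hX.dens.dz.inter_nhds_nonempty himg
  have hp10 : p1.1 0 ≠ 0 := fun h0 => hx1 ((hX.desc.z1 p1).2 h0)
  set c : ℂ := p1.1 0 with hc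
  -- Step 2
  have hp1W' : p1.1 ∈ W := hp1W
  have hQne : cls (∏ i, Q i) ≠ 0 := by
    rw [map_prod]
    exact Finset.prod_ne_zero_iff.2 fun i _ => hQ i
  have hVaff : act c⁻¹ p1.1 ∈ Vaff r1 := by
    refine ⟨?_, ?_, ?_⟩
    · rw [G_act, p1.2.1.1, mul_zero]
    · rw [act_zero', inv_mul_cancel₀ hp10]
    · rw [act_five']
      exact (hWsub hp1W').2.2.2
  have hcact : Continuous (act c) := continuous_act_right c
  have hW'' : act c ⁻¹' W ∈ 𝓝 (act c⁻¹ p1.1) := by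
    refine (hWo.preimage hcact).mem_nhds ?_
    rw [mem_preimage, act_act_inv hp10]
    exact hp1W'
  obtain ⟨p2, hp2W, hp2V, hp2Q⟩ := mem_closure_iff_nhds.1 (hd r1 (∏ i, Q i) hQne hVaff) _ hW''
  -- Step 3
  have hp2C : p2 ∈ GA.ConeR r := by
    have h1 : act c p2 ∈ W := hp2W
    refine ⟨⟨hp2V.1, ⟨0, by decide, by rw [hp2V.2.1]; exact one_ne_zero⟩,
      lt_of_lt_of_le hp2V.2.2 (hle.trans hr1)⟩, ?_, lt_of_lt_of_le hp2V.2.2 hle⟩
    intro hG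
    exact (hWsub h1).2.2.1 ((act_mem_Gam hp10).2 hG)
  have hcn : ContinuousAt (fun p' : Fin 6 → ℂ => act (p' 0)⁻¹ p') p2 := by
    have h1 : ContinuousAt (fun p' : Fin 6 → ℂ => (p' 0)⁻¹) p2 :=
      (continuous_apply 0).continuousAt.inv₀ (by rw [hp2V.2.1]; exact one_ne_zero)
    exact continuous_act.continuousAt.comp (h1.prodMk continuousAt_id)
  have hval : act (p2 0)⁻¹ p2 = p2 := by rw [hp2V.2.1, inv_one, act_one]
  have hN1 : act c ⁻¹' W ∈ 𝓝 p2 := (hWo.preimage hcact).mem_nhds hp2W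
  have hN2 : {p' : Fin 6 → ℂ | evP (∏ i, Q i) p' ≠ 0} ∈ 𝓝 p2 :=
    (he.anP r1 (∏ i, Q i) p2 hp2V.2.2).continuousAt.eventually_ne hp2Q
  have hN3 : {p' : Fin 6 → ℂ | ‖p' 5‖ < r1} ∈ 𝓝 p2 :=
    (isOpen_lt (continuous_norm.comp (continuous_apply 5)) continuous_const).mem_nhds hp2V.2.2
  have hN4 : {p' : Fin 6 → ℂ | p' 0 ≠ 0} ∈ 𝓝 p2 :=
    (isOpen_ne_fun (continuous_apply 0) continuous_const).mem_nhds
      (by show p2 0 ≠ 0; rw [hp2V.2.1]; exact one_ne_zero)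
  have hN5 : (fun p' : Fin 6 → ℂ => act (p' 0)⁻¹ p') ⁻¹' (act c ⁻¹' W ∩
      ({p' : Fin 6 → ℂ | evP (∏ i, Q i) p' ≠ 0} ∩ {p' : Fin 6 → ℂ | ‖p' 5‖ < r1})) ∈ 𝓝 p2 := by
    apply hcn
    show _ ∈ 𝓝 (act (p2 0)⁻¹ p2)
    rw [hval]
    exact inter_mem hN1 (inter_mem hN2 hN3)
  obtain ⟨p3, ⟨⟨hp3a, hp3b, hp3c⟩, hp30⟩, hp3D⟩ :=
    mem_closure_iff_nhds.1 ((hM 0).dense hp2C) _ (inter_mem hN5 hN4)
  have hp30' : p3 0 ≠ 0 := hp30
  set p4 : Fin 6 → ℂ := act (p3 0)⁻¹ p3 with hp4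
  have hp4W : act c p4 ∈ W := hp3a
  have hp4Q : evP (∏ i, Q i) p4 ≠ 0 := hp3b
  have hp45 : ‖p4 5‖ < r1 := hp3c
  have hp40 : p4 0 = 1 := by rw [hp4, act_zero', inv_mul_cancel₀ hp30']
  have hp4D : p4 ∈ DL b l := (hM 0).stable _ (inv_ne_zero hp30') _ hp3D
  have hp4V : p4 ∈ Vaff r1 := by
    obtain ⟨h', -, -⟩ := bx_spec b hp4D
    exact ⟨h'.1.1, hp40, hp45⟩
  -- Step 4
  have hqD : act c p4 ∈ DL b l := (hM 0).stable _ hp10 _ hp4D
  obtain ⟨hq, hq', hbx⟩ := bx_spec b hqD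
  have hqU1 : (b.e.toFun ⟨F.pi1 ⟨act c p4, hq⟩, hq'⟩).1.1 ∈ U1 := by
    have h1 : F.pi1 ⟨act c p4, hq⟩ ∈ O' := hW1sub (hWsub hp4W).1
    have h2 : (⟨F.pi1 ⟨act c p4, hq⟩, hq'⟩ : ↥({x | ‖F.g x‖ < r} \ b.A)) ∈
        Subtype.val ⁻¹' O' := h1
    rw [hO'eq] at h2
    exact h2
  obtain ⟨hqs, hqU2⟩ := (hWsub hp4W).2.1
  have hkey : (b.e.toFun ⟨F.pi1 ⟨act c p4, hq⟩, hq'⟩).1.1 =
      Projectivization.mk ℂ (fun i => evH m (s i) (act c p4)) hqs := by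
    rw [← Projectivization.mk_rep (b.e.toFun ⟨F.pi1 ⟨act c p4, hq⟩, hq'⟩).1.1]
    symm
    apply mk_eq_of_cross
    intro i j
    rw [← hbx]
    have hbl : bl b l (act c p4) ≠ 0 := hqD
    -- the quotients
    have hf : ∀ i, bx b (act c p4) i = bl b l (act c p4) * fL b l i p4 := by
      intro i
      rw [← (hM i).inv c hp10 p4 hp4D]
      unfold fL
      field_simp
    have hQ4 : ∀ i, evP (Q i) p4 ≠ 0 := by
      intro i
      rw [evP_hom hp45, map_prod] at hp4Q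
      have := Finset.prod_ne_zero_iff.1 hp4Q i (Finset.mem_univ i)
      rw [evP_hom hp45]
      exact this
    have hsf : ∀ i j, evP (s i) p4 * fL b l j p4 = evP (s j) p4 * fL b l i p4 := by
      intro i j
      have h1 : cls (s i * P j * Q i - s j * P i * Q j) = 0 := by
        rw [map_sub, hs i j, sub_self]
      have h2 := hz r1 _ h1 p4 hp4V
      rw [evP_hom hp45, map_sub, map_mul, map_mul, map_mul, map_mul, ← evP_hom hp45,
        ← evP_hom hp45, ← evP_hom hp45, ← evP_hom hp45, ← evP_hom hp45, ← evP_hom hp45,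
        ← hPQ i p4 hp4D hp40 hp45, ← hPQ j p4 hp4D hp40 hp45] at h2
      have h3 : (evP (Q i) p4 * evP (Q j) p4) *
          (evP (s i) p4 * fL b l j p4 - evP (s j) p4 * fL b l i p4) = 0 := by
        linear_combination h2
      rcases mul_eq_zero.1 h3 with h4 | h4
      · exact absurd h4 (mul_ne_zero (hQ4 i) (hQ4 j))
      · exact sub_eq_zero.1 h4
    rw [he.actH r1 m (s i) (hm i) c hp10, he.actH r1 m (s j) (hm j) c hp10,
      he.oneH r1 m (s i) p4 hp40, he.oneH r1 m (s j) p4 hp40, hf i, hf j]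
    linear_combination (c ^ m * bl b l (act c p4)) * hsf i j
  rw [hkey] at hqU1
  exact (Set.disjoint_left.1 hdisj) hqU1 hqU2

end Pool.Agent.KO
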