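import Pool.Agent.KO.A.Spec

/-!
# Project KO, row A7: the coordinates are meromorphic on the cone (helper62)
-/

set_option autoImplicit false

namespace Pool.Agent.KO.A7

open Set Filter Topology MvPolynomial

/-- The value of the linear form `l` at the point `P`. -/
noncomputable def lin {N : ℕ} (l : Fin (N + 1) → ℂ) (P : PN N) : ℂ := ∑ i, l i * P.rep i

theorem rep_mk {N : ℕ} (v : Fin (N + 1) → ℂ) (hv : v ≠ 0) :
    ∃ c : ℂ, c ≠ 0 ∧ (Projectivization.mk ℂ v hv).rep = c • v := by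
  obtain ⟨a, ha⟩ := Projectivization.exists_smul_eq_mk_rep ℂ v hv
  exact ⟨(a : ℂ), a.ne_zero, by rw [← ha]; rfl⟩

theorem lin_mk {N : ℕ} (l v : Fin (N + 1) → ℂ) (hv : v ≠ 0) :
    lin l (Projectivization.mk ℂ v hv) ≠ 0 ↔ ∑ i, l i * v i ≠ 0 := by
  obtain ⟨c, hc, h⟩ := rep_mk v hv
  unfold lin
  rw [h]
  have h1 : ∑ i, l i * (c • v) i = c * ∑ i, l i * v i := by
    rw [Finset.mul_sum]
    refine Finset.sum_congr rfl fun i _ => ?_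
    rw [Pi.smul_apply, smul_eq_mul]
    ring
  rw [h1, mul_ne_zero_iff]
  exact ⟨fun h => h.2, fun h => ⟨hc, h⟩⟩

theorem quo_mk {N : ℕ} (l v : Fin (N + 1) → ℂ) (hv : v ≠ 0) (i : Fin (N + 1)) :
    (Projectivization.mk ℂ v hv).rep i / lin l (Projectivization.mk ℂ v hv) =
      v i / ∑ i, l i * v i := by
  obtain ⟨c, hc, h⟩ := rep_mk v hv
  unfold lin
  rw [h]
  have h1 : ∑ i, l i * (c • v) i = c * ∑ i, l i * v i := by
    rw [Finset.mul_sum]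
    refine Finset.sum_congr rfl fun i _ => ?_
    rw [Pi.smul_apply, smul_eq_mul]
    ring
  rw [h1, Pi.smul_apply, smul_eq_mul, mul_div_mul_left _ _ hc]

section P

variable {N : ℕ}

/-- The projection. -/
noncomputable def pr (q : {v : Fin (N + 1) → ℂ // v ≠ 0} × ℂ) : PN N × ℂ :=
  (Projectivization.mk ℂ q.1.1 q.1.2, q.2)

theorem pr_quot (h : PFacts N) : IsOpenQuotientMap (pr (N := N)) where
  surjective := by
    rintro ⟨P, t⟩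
    exact ⟨(⟨P.rep, P.rep_nonzero⟩, t), by rw [pr, P.mk_rep]⟩
  continuous := h.cont
  isOpenMap := h.openMap

theorem cont_sum (l : Fin (N + 1) → ℂ) :
    Continuous fun q : {v : Fin (N + 1) → ℂ // v ≠ 0} × ℂ => ∑ i, l i * q.1.1 i := by
  refine continuous_finsetSum _ fun i _ => continuous_const.mul ?_
  exact (continuous_apply i).comp (continuous_subtype_val.comp continuous_fst)

theorem isOpen_lin (h : PFacts N) (l : Fin (N + 1) → ℂ) :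
    IsOpen {P : PN N × ℂ | lin l P.1 ≠ 0} := by
  rw [← (pr_quot h).isQuotientMap.isOpen_preimage]
  have h1 : pr ⁻¹' {P : PN N × ℂ | lin l P.1 ≠ 0} =
      {q : {v : Fin (N + 1) → ℂ // v ≠ 0} × ℂ | ∑ i, l i * q.1.1 i ≠ 0} := by
    ext q
    exact lin_mk l q.1.1 q.1.2
  rw [h1]
  exact isOpen_ne_fun (cont_sum l) continuous_const

theorem cont_quo (h : PFacts N) (l : Fin (N + 1) → ℂ) (i : Fin (N + 1)) (P : PN N × ℂ)
    (hP : lin l P.1 ≠ 0) :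
    ContinuousAt (fun P : PN N × ℂ => P.1.rep i / lin l P.1) P := by
  obtain ⟨q, rfl⟩ := (pr_quot h).surjective P
  rw [← (pr_quot h).continuousAt_comp_iff]
  have h1 : (fun P : PN N × ℂ => P.1.rep i / lin l P.1) ∘ pr =
      fun q : {v : Fin (N + 1) → ℂ // v ≠ 0} × ℂ => q.1.1 i / ∑ i, l i * q.1.1 i := by
    funext q
    exact quo_mk l q.1.1 q.1.2 i
  rw [h1]
  refine ContinuousAt.div ?_ (cont_sum l).continuousAt ((lin_mk l q.1.1 q.1.2).1 hP)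
  exact ((continuous_apply i).comp (continuous_subtype_val.comp continuous_fst)).continuousAt

end P

section B

variable {F : Flip} {r : ℝ} {N : ℕ} {S : Set (PN N × ℂ)} (b : Bimer F.O F.g r S)

theorem isOpen_X (hX : F.XaFacts) : IsOpen ({x | ‖F.g x‖ < r} \ b.A) := by
  have hg : Continuous F.g := continuous_iff_continuousAt.2 fun x => hX.shf.cont _ _ (hX.hol x)
  have hΩ : IsOpen {x | ‖F.g x‖ < r} := isOpen_lt hg.norm continuous_const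
  rw [isOpen_iff_mem_nhds]
  rintro x ⟨hx, hxA⟩
  obtain ⟨V, hV, hxV, k, G, hG, hA⟩ := b.anA.2 x hx
  have h1 : ∃ i, G i x ≠ 0 := by
    by_contra h
    push Not at h
    exact hxA (hA.symm.subset ⟨hxV, h⟩ : x ∈ b.A ∩ V).1
  obtain ⟨i, hi⟩ := h1
  have h2 : ∀ᶠ y in 𝓝 x, G i y ≠ 0 := (hX.shf.cont _ _ (hG i x hxV)).eventually_ne hi
  filter_upwards [h2, hV.mem_nhds hxV, hΩ.mem_nhds hx] with y hy1 hy2 hy3
  refine ⟨hy3, fun hyA => hy1 ?_⟩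
  exact (hA.subset (⟨hyA, hy2⟩ : y ∈ b.A ∩ V)).2 i

theorem bx_eq (p : Flip.M1) (h : F.pi1 p ∈ {x | ‖F.g x‖ < r} \ b.A) :
    bx b p.1 = (b.e.toFun ⟨F.pi1 p, h⟩).1.1.rep := by
  unfold bx
  rw [dif_pos ⟨p.2, h⟩]

theorem bl_eq (l : Fin (N + 1) → ℂ) (p : Flip.M1) (h : F.pi1 p ∈ {x | ‖F.g x‖ < r} \ b.A) :
    bl b l p.1 = lin l (b.e.toFun ⟨F.pi1 p, h⟩).1.1 := by
  unfold bl lin
  rw [bx_eq b p h]

theorem mem_DL (l : Fin (N + 1) → ℂ) (p : Fin 6 → ℂ) (hp : p ∈ DL b l) :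
    ∃ h : p ∈ Cone ∧ p ∉ Gam, F.pi1 ⟨p, h⟩ ∈ {x | ‖F.g x‖ < r} \ b.A := by
  by_contra h
  apply hp
  unfold bl bx
  rw [dif_neg h]
  simp

theorem mem_DL' (l : Fin (N + 1) → ℂ) (p : Flip.M1)
    (h : F.pi1 p ∈ {x | ‖F.g x‖ < r} \ b.A) :
    p.1 ∈ DL b l ↔ lin l (b.e.toFun ⟨F.pi1 p, h⟩).1.1 ≠ 0 := by
  rw [← bl_eq]
  rfl

/-- An open set of `X` that meets the domain `‖g‖ < r` contains a point of a dense subset. -/
theorem meets (E : Set ↥({x | ‖F.g x‖ < r} \ b.A)) (hE : Dense E)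
    (U : Set F.Sp) (hU : IsOpen U) (x : F.Sp) (hxU : x ∈ U) (hx : ‖F.g x‖ < r) :
    ∃ y ∈ E, y.1 ∈ U := by
  have h1 : x ∈ closure ({x | ‖F.g x‖ < r} \ b.A) := b.denseA hx
  rw [mem_closure_iff] at h1
  obtain ⟨y, hyU, hy⟩ := h1 U hU hxU
  obtain ⟨z, hz, hzE⟩ := hE.inter_open_nonempty (Subtype.val ⁻¹' U)
    (hU.preimage continuous_subtype_val) ⟨⟨y, hy⟩, hyU⟩
  exact ⟨z, hzE, hz⟩

theorem g_pi1 (p : Flip.M1) : F.g (F.pi1 p) = p.1 5 := rfl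

theorem pi1_act (hX : F.XaFacts) {l : ℂ} (hl : l ≠ 0) (p : Flip.M1)
    (h : act l p.1 ∈ Cone ∧ act l p.1 ∉ Gam) : F.pi1 ⟨act l p.1, h⟩ = F.pi1 p :=
  ((hX.rel.eq11 p ⟨act l p.1, h⟩).2 ⟨l, hl, rfl⟩).symm

theorem bx_act (hX : F.XaFacts) (l : Fin (N + 1) → ℂ) {c : ℂ} (hc : c ≠ 0) (p : Fin 6 → ℂ)
    (hp : p ∈ DL b l) : bx b (act c p) = bx b p := by
  obtain ⟨h, h'⟩ := mem_DL b l p hp
  have h1 : act c p ∈ Cone ∧ act c p ∉ Gam :=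
    ⟨(act_mem_Cone hc).2 h.1, fun h2 => h.2 ((act_mem_Gam hc).1 h2)⟩
  have h2 : F.pi1 ⟨act c p, h1⟩ = F.pi1 ⟨p, h⟩ := pi1_act hX hc ⟨p, h⟩ h1
  have h3 : F.pi1 ⟨act c p, h1⟩ ∈ {x | ‖F.g x‖ < r} \ b.A := by rw [h2]; exact h'
  have h4 : (⟨F.pi1 ⟨act c p, h1⟩, h3⟩ : ↥({x | ‖F.g x‖ < r} \ b.A)) = ⟨F.pi1 ⟨p, h⟩, h'⟩ :=
    Subtype.ext h2
  rw [bx_eq b ⟨act c p, h1⟩ h3, bx_eq b ⟨p, h⟩ h', h4]

/-- Points of an open set around a point of `M₁`. -/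
theorem nhds_M1 (p : Flip.M1) (P : Flip.M1 → Prop) (h : ∀ᶠ p' in 𝓝 p, P p') :
    ∃ V : Set (Fin 6 → ℂ), IsOpen V ∧ p.1 ∈ V ∧ ∀ p' : Flip.M1, p'.1 ∈ V → P p' := by
  rw [nhds_subtype_eq_comap, eventually_comap] at h
  obtain ⟨V, hV, hVo, hpV⟩ := eventually_nhds_iff.1 h
  exact ⟨V, hVo, hpV, fun p' hp' => hV p'.1 hp' p' rfl⟩

end B

end Pool.Agent.KO.A7

namespace Pool.Agent.KO

open Set Filter Topology MvPolynomial A7

theorem sp_mer (hl : SpLin) (_ht : SpT2) : SpMer := by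
  intro F r N S b hr hr1 hX hP
  have hXo := isOpen_X b hX
  have := hX.second
  obtain ⟨E, hEc, hEd⟩ := TopologicalSpace.exists_countable_dense ↥({x | ‖F.g x‖ < r} \ b.A)
  obtain ⟨l, hlE⟩ := hl N ((fun x => (b.e.toFun x).1.1.rep) '' E) (hEc.image _) (by
    rintro v ⟨x, -, rfl⟩
    exact Projectivization.rep_nonzero _)
  have hlE' : ∀ x ∈ E, lin l (b.e.toFun x).1.1 ≠ 0 := fun x hx => hlE _ ⟨x, hx, rfl⟩
  have hec : Continuous b.e.toFun := b.e.continuous_toFun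
  refine ⟨l, fun i => ⟨hr, hr1, ?_, ?_, ?_, ?_, ?_, ?_⟩⟩
  · -- the set is relatively open
    have h1 : IsOpen {x : ↥({x | ‖F.g x‖ < r} \ b.A) | lin l (b.e.toFun x).1.1 ≠ 0} :=
      (isOpen_lin hP l).preimage (continuous_subtype_val.comp hec)
    have h2 : IsOpen (Subtype.val ''
        {x : ↥({x | ‖F.g x‖ < r} \ b.A) | lin l (b.e.toFun x).1.1 ≠ 0}) :=
      hXo.isOpenMap_subtype_val _ h1
    have h3 := h2.preimage hX.top.cont1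
    obtain ⟨O, hO, hO'⟩ := isOpen_induced_iff.1 h3
    refine ⟨O, hO, ?_⟩
    ext p
    constructor
    · intro hp
      obtain ⟨h, h'⟩ := mem_DL b l p hp
      refine ⟨?_, h.1, h.2, h'.1⟩
      have h4 : (⟨p, h⟩ : Flip.M1) ∈ Subtype.val ⁻¹' O := by
        rw [hO']
        exact ⟨⟨_, h'⟩, (mem_DL' b l ⟨p, h⟩ h').1 hp, rfl⟩
      exact h4
    · rintro ⟨hpO, hpC, hpG, hpr⟩
      have h4 : (⟨p, hpC, hpG⟩ : Flip.M1) ∈ Subtype.val ⁻¹' O := hpO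
      rw [hO'] at h4
      obtain ⟨⟨x, hx⟩, hx1, hx2⟩ := h4
      change x = F.pi1 ⟨p, hpC, hpG⟩ at hx2
      subst hx2
      exact (mem_DL' b l ⟨p, hpC, hpG⟩ hx).2 hx1
  · -- density
    rintro p ⟨hpC, hpG, hpr⟩
    rw [mem_closure_iff]
    intro O hO hpO
    obtain ⟨y, hyE, p', hp'O, hp'⟩ := meets b E hEd (F.pi1 '' (Subtype.val ⁻¹' O))
      (hX.top.open1 _ (hO.preimage continuous_subtype_val)) (F.pi1 ⟨p, hpC, hpG⟩)
      ⟨⟨p, hpC, hpG⟩, hpO, rfl⟩ hpr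
    refine ⟨p'.1, hp'O, ?_⟩
    have h1 : F.pi1 p' ∈ {x | ‖F.g x‖ < r} \ b.A := by rw [hp']; exact y.2
    rw [mem_DL' b l p' h1]
    have h2 : (⟨F.pi1 p', h1⟩ : ↥({x | ‖F.g x‖ < r} \ b.A)) = y := Subtype.ext hp'
    rw [h2]
    exact hlE' y hyE
  · -- stable
    intro c hc p hp
    show bl b l (act c p) ≠ 0
    unfold bl
    rw [bx_act b hX l hc p hp]
    exact hp
  · -- invariant
    intro c hc p hp
    unfold fL bl
    rw [bx_act b hX l hc p hp]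
  · -- continuous
    rw [continuousOn_iff_continuous_domRestrict, continuous_iff_continuousAt]
    intro p
    obtain ⟨h, h'⟩ := mem_DL b l p.1 p.2
    have hD : ∀ q : ↥(DL b l), ∃ h : q.1 ∈ Cone ∧ q.1 ∉ Gam,
        F.pi1 ⟨q.1, h⟩ ∈ {x | ‖F.g x‖ < r} \ b.A := fun q => mem_DL b l q.1 q.2
    choose h1 h2 using hD
    have h3 : (DL b l).domRestrict (fL b l i) =
        (fun P : PN N × ℂ => P.1.rep i / lin l P.1) ∘ fun q : ↥(DL b l) =>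
          (b.e.toFun ⟨F.pi1 ⟨q.1, h1 q⟩, h2 q⟩).1 := by
      funext q
      show bx b q.1 i / bl b l q.1 = _
      rw [bx_eq b ⟨q.1, h1 q⟩ (h2 q), bl_eq b l ⟨q.1, h1 q⟩ (h2 q)]
      rfl
    rw [h3]
    have h4 : Continuous fun q : ↥(DL b l) => (b.e.toFun ⟨F.pi1 ⟨q.1, h1 q⟩, h2 q⟩).1 := by
      refine continuous_subtype_val.comp (hec.comp ?_)
      refine Continuous.subtype_mk (hX.top.cont1.comp ?_) _
      exact Continuous.subtype_mk continuous_subtype_val _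
    refine ContinuousAt.comp ?_ h4.continuousAt
    refine cont_quo hP l i _ ?_
    exact (mem_DL' b l ⟨p.1, h1 p⟩ (h2 p)).1 p.2
  · -- meromorphic
    rintro p ⟨hpC, hpG, hpr⟩
    obtain ⟨V0, G, hV0, hpV0, hG, hGd, hGe⟩ := b.mero (F.pi1 ⟨p, hpC, hpG⟩) hpr
    have h1 : ∀ j, ∃ H : (Fin 6 → ℂ) → ℂ, AnalyticAt ℂ H p ∧
        ∀ᶠ p' in 𝓝 (⟨p, hpC, hpG⟩ : Flip.M1), G j (F.pi1 p') = H p'.1 := fun j =>
      (hX.ofacts.o1 (G j) ⟨p, hpC, hpG⟩).1 (hG j _ hpV0)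
    choose H hHa hHe using h1
    have h2 : ∀ᶠ p' in 𝓝 (⟨p, hpC, hpG⟩ : Flip.M1), ∀ j, G j (F.pi1 p') = H j p'.1 :=
      eventually_all.2 hHe
    obtain ⟨V1, hV1o, hpV1, hV1⟩ := nhds_M1 _ _ h2
    have h3 : ∀ᶠ p' in 𝓝 (⟨p, hpC, hpG⟩ : Flip.M1), F.pi1 p' ∈ V0 :=
      hX.top.cont1.continuousAt.eventually (hV0.mem_nhds hpV0)
    obtain ⟨V2, hV2o, hpV2, hV2⟩ := nhds_M1 _ _ h3
    have h4 : ∀ᶠ x in 𝓝 p, ∀ j, AnalyticAt ℂ (H j) x :=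
      eventually_all.2 fun j => (hHa j).eventually_analyticAt
    obtain ⟨V3, hV3, hV3o, hpV3⟩ := eventually_nhds_iff.1 h4
    have hV4 : IsOpen {x : Fin 6 → ℂ | ‖x 5‖ < r} :=
      isOpen_lt (continuous_apply 5).norm continuous_const
    refine ⟨V1 ∩ V2 ∩ V3 ∩ {x | ‖x 5‖ < r} ∩ Gamᶜ,
      (((hV1o.inter hV2o).inter hV3o).inter hV4).inter isClosed_Gam.isOpen_compl,
      ⟨⟨⟨⟨hpV1, hpV2⟩, hpV3⟩, hpr⟩, hpG⟩, fun x => ∑ j, l j * H j x, H i, ?_, ?_, ?_, ?_⟩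
    · intro x hx
      refine DifferentiableAt.differentiableWithinAt ?_
      refine DifferentiableAt.fun_sum fun j _ => ?_
      exact ((hV3 x hx.1.1.2 j).differentiableAt).const_mul (l j)
    · intro x hx
      exact (hV3 x hx.1.1.2 i).differentiableAt.differentiableWithinAt
    · rintro x ⟨hxV, hxC⟩
      rw [mem_closure_iff]
      intro O hO hxO
      have hO2 : IsOpen (O ∩ (V1 ∩ V2 ∩ V3 ∩ {x | ‖x 5‖ < r} ∩ Gamᶜ)) :=
        hO.inter ((((hV1o.inter hV2o).inter hV3o).inter hV4).inter isClosed_Gam.isOpen_compl)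
      have hUo := hX.top.open1 _ (hO2.preimage continuous_subtype_val)
      have hxU : F.pi1 ⟨x, hxC, hxV.2⟩ ∈ F.pi1 '' (Subtype.val ⁻¹'
          (O ∩ (V1 ∩ V2 ∩ V3 ∩ {x | ‖x 5‖ < r} ∩ Gamᶜ))) := ⟨_, ⟨hxO, hxV⟩, rfl⟩
      have hxV0 : F.pi1 ⟨x, hxC, hxV.2⟩ ∈ V0 := hV2 ⟨x, hxC, hxV.2⟩ hxV.1.1.1.2
      have h5 := mem_closure_iff.1 (hGd hxV0) _ (hUo.inter hV0) ⟨hxU, hxV0⟩
      obtain ⟨y1, ⟨hy1U, hy1V⟩, -, hy1⟩ := h5
      obtain ⟨j, hj⟩ := Function.ne_iff.1 hy1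
      have h6 : ∀ᶠ y in 𝓝 y1, G j y ≠ 0 :=
        (hX.shf.cont _ _ (hG j y1 hy1V)).eventually_ne hj
      obtain ⟨W, hW, hWo, hyW⟩ := eventually_nhds_iff.1 h6
      have hy1r : ‖F.g y1‖ < r := by
        obtain ⟨p', hp', rfl⟩ := hy1U
        exact hp'.2.1.2
      obtain ⟨y2, hy2E, ⟨hy2U, hy2V⟩, hy2W⟩ := meets b E hEd _ ((hUo.inter hV0).inter hWo)
        y1 ⟨⟨hy1U, hy1V⟩, hyW⟩ hy1r
      obtain ⟨p', ⟨hp'O, hp'V⟩, hp'⟩ := hy2U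
      refine ⟨p'.1, hp'O, ⟨hp'V, p'.2.1⟩, ?_⟩
      have hne : (fun j => G j y2.1) ≠ 0 := fun h => hW _ hy2W (congrFun h j)
      have h7 := hGe y2.1 y2.2 hy2V hne
      have h8 := hlE' y2 hy2E
      rw [h7, lin_mk] at h8
      have h9 : ∀ j, G j y2.1 = H j p'.1 := fun j => by
        rw [← hp']
        exact hV1 p' hp'V.1.1.1.1 j
      simp only [h9] at h8
      exact h8
    · rintro x ⟨hxV, hxD⟩
      obtain ⟨h, h'⟩ := mem_DL b l x hxD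
      have hxV0 : F.pi1 ⟨x, h⟩ ∈ V0 := hV2 ⟨x, h⟩ hxV.1.1.1.2
      have h9 : ∀ j, G j (F.pi1 ⟨x, h⟩) = H j x := fun j => hV1 ⟨x, h⟩ hxV.1.1.1.1 j
      by_cases hne : (fun j => G j (F.pi1 ⟨x, h⟩)) = 0
      · have h10 : ∀ j, H j x = 0 := fun j => by rw [← h9]; exact congrFun hne j
        simp [h10]
      · have h7 := hGe _ h' hxV0 hne
        have h8 := (mem_DL' b l ⟨x, h⟩ h').1 hxD
        rw [h7, lin_mk] at h8
        show (∑ j, l j * H j x) * (bx b x i / bl b l x) = H i x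
        have h11 : bx b x i / bl b l x = G i (F.pi1 ⟨x, h⟩) /
            ∑ j, l j * G j (F.pi1 ⟨x, h⟩) := by
          rw [bx_eq b ⟨x, h⟩ h', bl_eq b l ⟨x, h⟩ h', h7]
          exact quo_mk l _ hne i
        rw [h11]
        simp only [h9] at h8 ⊢
        field_simp

end Pool.Agent.KO
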