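import Pool.Agent.KO.A.Spec

/-!
# Project KO, block A, row A1: normal forms modulo the equation
-/

set_option autoImplicit false

namespace Pool.Agent.KO

open MvPolynomial

namespace A1

variable {R : Type} [CommRing R]

/-- Polynomials in `X 3` with coefficients in the other variables. -/
noncomputable def e (R : Type) [CommRing R] :
    MvPolynomial (Fin 4) R ≃ₐ[R] Polynomial (MvPolynomial (Fin 3) R) :=
  (renameEquiv R (Equiv.swap (0 : Fin 4) 3)).trans (finSuccEquiv R 3)

theorem e_apply (P : MvPolynomial (Fin 4) R) :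
    e R P = finSuccEquiv R 3 (rename (Equiv.swap (0 : Fin 4) 3) P) := rfl

theorem e_X3 : e R (X 3) = Polynomial.X := by
  rw [e_apply, rename_X, Equiv.swap_apply_right, finSuccEquiv_X_zero]

theorem e_X0 : e R (X 0) = Polynomial.C (X 2) := by
  rw [e_apply, rename_X, Equiv.swap_apply_left]
  exact finSuccEquiv_X_succ (R := R) (n := 3) (j := 2)

theorem e_X1 : e R (X 1) = Polynomial.C (X 0) := by
  rw [e_apply, rename_X, Equiv.swap_apply_of_ne_of_ne (by decide) (by decide)]
  exact finSuccEquiv_X_succ (R := R) (n := 3) (j := 0)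

theorem e_X2 : e R (X 2) = Polynomial.C (X 1) := by
  rw [e_apply, rename_X, Equiv.swap_apply_of_ne_of_ne (by decide) (by decide)]
  exact finSuccEquiv_X_succ (R := R) (n := 3) (j := 1)

theorem e_C (c : R) : e R (C c) = Polynomial.C (C c) := by
  have h : e R (algebraMap R _ c) = algebraMap R _ c := (e R).commutes c
  exact h

/-- The constant term of the equation. -/
noncomputable def cst (t : R) : MvPolynomial (Fin 3) R :=
  X 1 ^ 3 + C t * X 0 ^ 11 + X 2 * X 0 ^ 10 + X 2 ^ 12 * X 0 - 1 - X 0 ^ 9

theorem e_gAff (t : R) : e R (gAff t) = Polynomial.X ^ 2 + Polynomial.C (cst t) := by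
  simp only [gAff, cst, map_add, map_sub, map_mul, map_pow, map_one, e_X0, e_X1, e_X2, e_X3, e_C]
  ring

theorem monic (t : R) : (e R (gAff t)).Monic := by
  rw [e_gAff]
  exact Polynomial.monic_X_pow_add_C _ two_ne_zero

theorem nf_iff (P : MvPolynomial (Fin 4) R) : NF P ↔ (e R P).natDegree ≤ 1 := by
  have h1 : (e R P).natDegree = degreeOf 3 P := by
    rw [e_apply, natDegree_finSuccEquiv]
    have h2 := degreeOf_rename_of_injective (p := P) (Equiv.swap (0 : Fin 4) 3).injective 3
    rwa [Equiv.swap_apply_right] at h2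
  rw [h1, degreeOf_le_iff]
  rfl

theorem natDegree_gAff [Nontrivial R] (t : R) : (e R (gAff t)).natDegree = 2 := by
  rw [e_gAff]
  exact Polynomial.natDegree_X_pow_add_C

end A1

theorem sp_nf : SpNf := by
  intro R _ t P
  rcases subsingleton_or_nontrivial R with hR | hR
  · refine ⟨0, ?_, ?_⟩
    · intro a ha
      simp at ha
    · have : P - 0 = 0 := Subsingleton.elim _ _
      rw [this]
      exact dvd_zero _
  · have hm := A1.monic t
    refine ⟨(A1.e R).symm (A1.e R P %ₘ A1.e R (gAff t)), ?_, ?_⟩
    · rw [A1.nf_iff, AlgEquiv.apply_symm_apply]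
      have h1 : A1.e R (gAff t) ≠ 1 := by
        intro h
        have h2 := A1.natDegree_gAff t
        rw [h, Polynomial.natDegree_one] at h2
        exact absurd h2 (by norm_num)
      have h2 := Polynomial.natDegree_modByMonic_lt (A1.e R P) hm h1
      rw [A1.natDegree_gAff] at h2
      omega
    · refine ⟨(A1.e R).symm (A1.e R P /ₘ A1.e R (gAff t)), ?_⟩
      apply (A1.e R).injective
      rw [map_sub, map_mul, AlgEquiv.apply_symm_apply, AlgEquiv.apply_symm_apply]
      have h3 := Polynomial.modByMonic_add_div (A1.e R P) (A1.e R (gAff t))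
      rw [sub_eq_iff_eq_add']
      exact h3.symm

theorem sp_nfU : SpNfU := by
  intro R _ _ t P hP hd
  have hm := A1.monic t
  rw [A1.nf_iff] at hP
  have h1 : A1.e R (gAff t) ∣ A1.e R P := map_dvd (A1.e R) hd
  have h2 : A1.e R P %ₘ A1.e R (gAff t) = 0 := (Polynomial.modByMonic_eq_zero_iff_dvd hm).2 h1
  have h3 : A1.e R P %ₘ A1.e R (gAff t) = A1.e R P := by
    rw [Polynomial.modByMonic_eq_self_iff hm]
    refine Polynomial.degree_lt_degree ?_
    rw [A1.natDegree_gAff]
    omega
  apply (A1.e R).injective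
  rw [map_zero, ← h3, h2]

end Pool.Agent.KO
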