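import Pool.Agent.KO.A.Spec

/-!
# Project KO, row A10: the degree is positive
-/

set_option autoImplicit false

namespace Pool.Agent.KO

open Set Filter Topology MvPolynomial

namespace A10

theorem weight_zero {a : Fin 4 →₀ ℕ} (h : Finsupp.weight wAff a ≤ 0) : a = 0 := by
  rw [Finsupp.weight_apply, Finsupp.sum_fintype _ _ (fun i => by simp), Fin.sum_univ_four] at h
  simp only [wAff, smul_eq_mul, Matrix.cons_val_zero, Matrix.cons_val_one, Matrix.cons_val] at h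
  ext i
  fin_cases i <;> simp <;> omega

theorem evH_zero {r : ℝ} (P : MvPolynomial (Fin 4) (AnR r))
    (hP : ∀ a ∈ P.support, Finsupp.weight wAff a ≤ 0) (p : Fin 6 → ℂ) (h : ‖p 5‖ < r) :
    evH 0 P p = evR ⟨p 5, by simpa using h⟩ (P.coeff 0) := by
  unfold evH
  rw [dif_pos h, Finset.sum_eq_single 0]
  · simp
  · intro a ha ha'
    exact absurd (weight_zero (hP a ha)) ha'
  · intro h0
    rw [notMem_support_iff.1 h0]
    simp

theorem isOpen_diff {F : Flip} {r : ℝ} {A : Set F.Sp} (xa : F.XaFacts)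
    (hA : IsAn F.O {x | ‖F.g x‖ < r} A) : IsOpen ({x | ‖F.g x‖ < r} \ A) := by
  have hgc : Continuous F.g := continuous_iff_continuousAt.2 fun x => xa.shf.cont _ _ (xa.hol x)
  rw [isOpen_iff_mem_nhds]
  rintro x ⟨hx, hxA⟩
  obtain ⟨V, hV, hxV, k, f, hf, hAV⟩ := hA.2 x hx
  have h1 : ∃ i, f i x ≠ 0 := by
    by_contra h
    push Not at h
    have : x ∈ A ∩ V := by
      rw [hAV]
      exact ⟨hxV, h⟩
    exact hxA this.1
  obtain ⟨i, hi⟩ := h1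
  have h2 : ∀ᶠ y in 𝓝 x, f i y ≠ 0 :=
    (xa.shf.cont _ _ (hf i x hxV)).eventually_ne hi
  have h3 : ∀ᶠ y in 𝓝 x, y ∈ V := hV.mem_nhds hxV
  have h4 : ∀ᶠ y in 𝓝 x, ‖F.g y‖ < r :=
    (hgc.norm.continuousAt.eventually_lt continuousAt_const hx)
  filter_upwards [h2, h3, h4] with y hy1 hy2 hy3
  refine ⟨hy3, fun hyA => hy1 ?_⟩
  have : y ∈ A ∩ V := ⟨hyA, hy2⟩
  rw [hAV] at this
  exact this.2 i

/-- The constant function. -/
def cst (r : ℝ) (c : ℂ) : AnR r := ⟨fun _ => c, fun _ => c, fun _ _ => analyticAt_const, fun _ => rfl⟩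

/-- A point of the cone with `z = 1`. -/
theorem exists_start : ∃ p : Flip.M1, p.1 0 ≠ 0 ∧ p.1 5 = 0 := by
  refine ⟨⟨![1, 1, 0, 1, 0, 0], ⟨?_, ⟨0, by decide, by simp⟩, by simp⟩, ?_⟩, by simp, by simp⟩
  · simp [G]
  · rintro ⟨-, h, -⟩
    simp at h

/-- A point with `z = 1`, outside of the exceptional set. -/
theorem exists_first {F : Flip} {r r2 : ℝ} {N : ℕ} {S : Set (PN N × ℂ)} (b : Bimer F.O F.g r S)
    (xa : F.XaFacts) (h2 : 0 < r2) (h2r : r2 ≤ r) :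
    ∃ p : Flip.M1, p.1 0 = 1 ∧ ‖p.1 5‖ < r2 ∧ F.pi1 p ∈ {x | ‖F.g x‖ < r} \ b.A := by
  have hgc : Continuous F.g := continuous_iff_continuousAt.2 fun x => xa.shf.cont _ _ (xa.hol x)
  obtain ⟨p0, hp0, hp5⟩ := exists_start
  have hU : IsOpen ({x | ‖F.g x‖ < r2} ∩ F.V1 0) :=
    (isOpen_lt hgc.norm continuous_const).inter (xa.desc.open1 0)
  have hg0 : F.g (F.pi1 p0) = 0 := hp5
  have h0 : F.pi1 p0 ∈ ({x | ‖F.g x‖ < r2} ∩ F.V1 0) := by
    refine ⟨?_, (xa.desc.mem1 0 p0).2 hp0⟩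
    show ‖F.g (F.pi1 p0)‖ < r2
    rw [hg0, norm_zero]
    exact h2
  have h1 : F.pi1 p0 ∈ closure ({x | ‖F.g x‖ < r} \ b.A) := by
    apply b.denseA
    show ‖F.g (F.pi1 p0)‖ < r
    rw [hg0, norm_zero]
    exact h2.trans_le h2r
  obtain ⟨x, ⟨hx1, hx2⟩, hx3⟩ := mem_closure_iff.1 h1 _ hU h0
  obtain ⟨p1, hp1, hp10⟩ := hx2
  have hl : (p1.1 0)⁻¹ ≠ 0 := inv_ne_zero hp10
  refine ⟨⟨act (p1.1 0)⁻¹ p1.1, (act_mem_Cone hl).2 p1.2.1, fun h =>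
    p1.2.2 ((act_mem_Gam hl).1 h)⟩, ?_, ?_, ?_⟩
  · change act (p1.1 0)⁻¹ p1.1 0 = 1
    rw [act_zero', inv_mul_cancel₀ hp10]
  · have h5 : F.g (F.pi1 p1) = p1.1 5 := rfl
    change ‖act (p1.1 0)⁻¹ p1.1 5‖ < r2
    rw [act_five', ← h5, hp1]
    exact hx1
  · have h6 : F.pi1 ⟨act (p1.1 0)⁻¹ p1.1, (act_mem_Cone hl).2 p1.2.1, fun h =>
        p1.2.2 ((act_mem_Gam hl).1 h)⟩ = F.pi1 p1 := by
      symm
      rw [xa.rel.eq11]
      exact ⟨_, hl, rfl⟩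
    rw [h6, hp1]
    exact hx3

/-- A second point in the same fibre with `z = 1`, outside of the exceptional set. -/
theorem exists_second (hF : SpDenF) {F : Flip} {r r1 : ℝ} {N : ℕ} {S : Set (PN N × ℂ)}
    (b : Bimer F.O F.g r S) (xa : F.XaFacts) (hr : r ≤ 1) (h1r : r1 ≤ r) (p : Flip.M1)
    (hp0 : p.1 0 = 1) (hp5 : ‖p.1 5‖ < r1) (hp : F.pi1 p ∈ {x | ‖F.g x‖ < r} \ b.A) :
    ∃ p' : Flip.M1, p'.1 0 = 1 ∧ p'.1 5 = p.1 5 ∧ p'.1 ≠ p.1 ∧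
      F.pi1 p' ∈ {x | ‖F.g x‖ < r} \ b.A := by
  have hO : IsOpen (F.pi1 ⁻¹' ({x | ‖F.g x‖ < r} \ b.A)) :=
    (isOpen_diff xa b.anA).preimage xa.top.cont1
  obtain ⟨U, hU, hUO⟩ := isOpen_induced_iff.1 hO
  have hpU : p.1 ∈ U ∩ Gamᶜ := by
    refine ⟨?_, p.2.2⟩
    have : p ∈ (Subtype.val ⁻¹' U : Set Flip.M1) := by
      rw [hUO]
      exact hp
    exact this
  have hUo : IsOpen (U ∩ Gamᶜ) := hU.inter isClosed_Gam.isOpen_compl
  have hV : p.1 ∈ Vaff r1 := ⟨p.2.1.1, hp0, hp5⟩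
  have hc : ‖(p.1 5 : ℂ)‖ < r1 := hp5
  have hcoef : ∀ a : Fin 4 →₀ ℕ, coeff a (X 0 - C (cst r1 (p.1 1)) :
      MvPolynomial (Fin 4) (AnR r1)) ≠ 0 → a = Finsupp.single 0 1 ∨ a = 0 := by
    intro a ha
    by_contra h
    push Not at h
    apply ha
    rw [coeff_sub, coeff_X, coeff_C, if_neg (Ne.symm h.1), if_neg (Ne.symm h.2), sub_zero]
  have hcl := hF r1 (X 0 - C (cst r1 (p.1 1))) (by
      intro a ha
      rcases hcoef a (mem_support_iff.1 ha) with rfl | rfl <;> simp)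
    ⟨p.1 5, by simpa using hc⟩ ⟨Finsupp.single 0 1, by
      rw [coeff_sub, coeff_X, if_pos rfl, coeff_C, if_neg (by
        intro h
        have := DFunLike.congr_fun h 0
        simp at this), sub_zero, map_one]
      exact one_ne_zero⟩ p.1 hV rfl
  obtain ⟨p', ⟨hp'U, hp'G⟩, hp'V, hp'5, hp'e⟩ := mem_closure_iff.1 hcl _ hUo hpU
  have hp'C : p' ∈ Cone := by
    refine ⟨hp'V.1, ⟨0, by decide, ?_⟩, hp'V.2.2.trans_le (h1r.trans hr)⟩
    rw [hp'V.2.1]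
    exact one_ne_zero
  refine ⟨⟨p', hp'C, hp'G⟩, hp'V.2.1, hp'5, ?_, ?_⟩
  · intro h
    apply hp'e
    have h' : p' = p.1 := h
    rw [h']
    unfold evP evQ
    rw [dif_pos hc, eval₂_sub, eval₂_X, eval₂_C]
    show p.1 1 - p.1 1 = 0
    ring
  · have : (⟨p', hp'C, hp'G⟩ : Flip.M1) ∈ (Subtype.val ⁻¹' U : Set Flip.M1) := hp'U
    rw [hUO] at this
    exact this

end A10

open A10 in
theorem sp_pos (_he : EvFacts) (hF : SpDenF) : SpPos := by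
  intro F r N S b hr hr1 xa pf r1 r2 _ h2 h21 h1r s hnf m hdeg hnz hmap
  by_contra hm
  have hm0 : m = 0 := by omega
  subst hm0
  obtain ⟨p, hp0, hp5, hp⟩ := exists_first b xa h2 (h21.trans h1r)
  obtain ⟨p', hp'0, hp'5, hne, hp'⟩ := exists_second hF b xa hr1 h1r p hp0 (hp5.trans_le h21) hp
  have hq5 : ‖p.1 5‖ < r1 := hp5.trans_le h21
  have hq5' : ‖p'.1 5‖ < r1 := by rw [hp'5]; exact hq5
  have hv : (fun i => evH 0 (s i) p'.1) = fun i => evH 0 (s i) p.1 := by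
    funext i
    rw [evH_zero _ (hdeg i) _ hq5, evH_zero _ (hdeg i) _ hq5']
    congr 2
    exact Subtype.ext hp'5
  have hs : (fun i => evH 0 (s i) p.1) ≠ 0 := by
    obtain ⟨i, a, ha⟩ := hnz ⟨p.1 5, by simpa using hq5⟩ hp5
    intro h
    have h3 : a ∈ (s i).support := by
      rw [mem_support_iff]
      intro h4
      rw [h4, map_zero] at ha
      exact ha rfl
    have h4 : a = 0 := weight_zero (hdeg i a h3)
    have h5 : evH 0 (s i) p.1 = 0 := congrFun h i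
    rw [evH_zero _ (hdeg i) _ hq5, ← h4] at h5
    exact ha h5
  have hs' : (fun i => evH 0 (s i) p'.1) ≠ 0 := by
    rw [hv]
    exact hs
  have e1 := hmap p hp5 hp hs
  have e2 := hmap p' (by rw [hp'5]; exact hp5) hp' hs'
  have e3 : (b.e.toFun ⟨F.pi1 p', hp'⟩).1.1 = (b.e.toFun ⟨F.pi1 p, hp⟩).1.1 := by
    rw [e1, e2]
    congr 1
  have e4 : (b.e.toFun ⟨F.pi1 p', hp'⟩).1.2 = (b.e.toFun ⟨F.pi1 p, hp⟩).1.2 := by
    rw [b.base, b.base]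
    exact hp'5
  have e5 : b.e.toFun ⟨F.pi1 p', hp'⟩ = b.e.toFun ⟨F.pi1 p, hp⟩ :=
    Subtype.ext (Prod.ext e3 e4)
  have e6 : (⟨F.pi1 p', hp'⟩ : ↥({x | ‖F.g x‖ < r} \ b.A)) = ⟨F.pi1 p, hp⟩ :=
    b.e.toHomeomorph.injective e5
  have e7 : F.pi1 p = F.pi1 p' := (congrArg Subtype.val e6).symm
  obtain ⟨l, -, hl⟩ := (xa.rel.eq11 p p').1 e7
  have hl1 : l = 1 := by
    have := congrFun hl 0
    rw [act_zero', hp0, hp'0, mul_one] at this
    exact this.symm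
  rw [hl1, act_one] at hl
  exact hne hl

end Pool.Agent.KO
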