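import Pool.Agent.KO.A.Spec

/-!
# Project KO, block A: restriction to a smaller disc
-/

set_option autoImplicit false

namespace Pool.Agent.KO

open Set Filter Topology MvPolynomial

theorem AnR.eq_zero_iff {r : ℝ} {f : AnR r} : f = 0 ↔ ∀ s, f.1 s = 0 :=
  ⟨fun h s => by rw [h]; rfl, fun h => Subtype.ext (funext h)⟩

/-- Restriction of analytic functions to a smaller disc. -/
def resR {r r' : ℝ} (h : r ≤ r') : AnR r' →+* AnR r where
  toFun f := ⟨fun s => f.1 ⟨s.1, Metric.ball_subset_ball h s.2⟩, by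
    obtain ⟨F, hF, hf⟩ := AnR.exists_fun f
    exact ⟨F, hF.mono (Metric.ball_subset_ball h), fun s => hf _⟩⟩
  map_one' := rfl
  map_mul' _ _ := rfl
  map_zero' := rfl
  map_add' _ _ := rfl

theorem evR_resR {r r' : ℝ} (h : r ≤ r') (s : Metric.ball (0 : ℂ) r) (f : AnR r') :
    evR s (resR h f) = evR ⟨s.1, Metric.ball_subset_ball h s.2⟩ f := rfl

theorem resR_tR {r r' : ℝ} (h : r ≤ r') : resR h (tR r') = tR r := rfl

theorem resR_injective {r r' : ℝ} (h : r ≤ r') (hr : 0 < r) : Function.Injective (resR h) := by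
  rw [injective_iff_map_eq_zero]
  intro f hf
  obtain ⟨F, hF, hfF⟩ := AnR.exists_fun f
  have h0 : (0 : ℂ) ∈ Metric.ball (0 : ℂ) r' := by
    simpa using hr.trans_le h
  have h1 : ∀ᶠ y in 𝓝 (0 : ℂ), F y = 0 := by
    filter_upwards [Metric.ball_mem_nhds (0 : ℂ) hr] with y hy
    have h2 := AnR.eq_zero_iff.1 hf ⟨y, hy⟩
    have h3 : f.1 ⟨y, Metric.ball_subset_ball h hy⟩ = 0 := h2
    rwa [hfF] at h3
  have h2 := hF.eqOn_zero_of_preconnected_of_eventuallyEq_zero
    (convex_ball (0 : ℂ) r').isPreconnected h0 h1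
  exact AnR.eq_zero_iff.2 fun s => by
    rw [hfF]
    exact h2 s.2

theorem evQ_map {r r' : ℝ} (h : r ≤ r') {σ : Type} (P : MvPolynomial σ (AnR r')) (x : σ → ℂ)
    {s : ℂ} (hs : ‖s‖ < r) : evQ (map (resR h) P) x s = evQ P x s := by
  unfold evQ
  rw [dif_pos hs, dif_pos (hs.trans_le h), eval₂_map]
  rfl

theorem gAff_map {R R' : Type} [CommRing R] [CommRing R'] (φ : R →+* R') (t : R) :
    map φ (gAff t) = gAff (φ t) := by
  simp [gAff]

/-- A polynomial that is not divisible by the equation stays so on a smaller disc. -/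
theorem not_dvd_map (hn : SpNf) (hnu : SpNfU) {r r' : ℝ} (h : r ≤ r') (hr : 0 < r)
    {Q : MvPolynomial (Fin 4) (AnR r')} (hQ : ¬ gAff (tR r') ∣ Q) :
    ¬ gAff (tR r) ∣ map (resR h) Q := by
  intro hd
  obtain ⟨Q', hQ', H, hH⟩ := hn (AnR r') (tR r') Q
  have hr' : 0 < r' := hr.trans_le h
  have : IsDomain (AnR r) := AnR.isDomain hr
  have h1 : gAff (tR r) ∣ map (resR h) Q' := by
    have h2 : map (resR h) Q' = map (resR h) Q - gAff (tR r) * map (resR h) H := by
      rw [← resR_tR h, ← gAff_map, ← map_mul, ← hH, map_sub]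
      ring
    rw [h2]
    exact dvd_sub hd (dvd_mul_right _ _)
  have h2 : NF (map (resR h) Q') := fun a ha => hQ' a (support_map_subset _ _ ha)
  have h3 := hnu (AnR r) (tR r) _ h2 h1
  have h4 : Q' = 0 := map_injective (resR h) (resR_injective h hr) (by rw [h3, map_zero])
  rw [h4, sub_zero] at hH
  exact hQ ⟨H, hH⟩

end Pool.Agent.KO
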