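import Pool.Agent.KO.A.Defs
import Pool.Agent.KO.X.Defs

/-!
# Project KO, block A: the bimeromorphic map is given by polynomials
-/

set_option autoImplicit false

namespace Pool.Agent.KO

open Set Filter Topology MvPolynomial

/-- The bimeromorphic map `b` is given by polynomials `s₀, …, s_N` of weighted degree `≤ m` with
coefficients analytic in `t`, without common factor over the field of constants; on no fibre over
the disc of radius `r₂` do all of them vanish. -/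
structure Sec (F : Flip) {r : ℝ} {N : ℕ} {S : Set (PN N × ℂ)} (b : Bimer F.O F.g r S) where
  r1 : ℝ
  r2 : ℝ
  pos1 : Fact (0 < r1)
  pos : 0 < r2
  le : r2 ≤ r1
  le_r : r1 ≤ r
  s : Fin (N + 1) → MvPolynomial (Fin 4) (AnR r1)
  m : ℕ
  one_le : 1 ≤ m
  nf : ∀ i, NF (s i)
  deg : ∀ i, ∀ a ∈ (s i).support, Finsupp.weight wAff a ≤ m
  top : ∃ i, ∃ a ∈ (s i).support, Finsupp.weight wAff a = m
  cop : ∀ d : Raff (tK r1), (∀ i, d ∣ cls (s i)) → IsUnit d
  nz : ∀ c : Metric.ball (0 : ℂ) r1, ‖c.1‖ < r2 → ∃ i a, evR c ((s i).coeff a) ≠ 0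
  map : ∀ p : Flip.M1, ‖p.1 5‖ < r2 → ∀ h : F.pi1 p ∈ {x | ‖F.g x‖ < r} \ b.A,
    ∀ hs : (fun i => evH m (s i) p.1) ≠ 0,
      (b.e.toFun ⟨F.pi1 p, h⟩).1.1 = Projectivization.mk ℂ (fun i => evH m (s i) p.1) hs

end Pool.Agent.KO
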