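import Pool.Agent.KO.A.Sec
import Pool.Agent.KO.GA.Spec
import Pool.Agent.KO.Xc.Defs

/-!
# Project KO, blocks A and B: the statements of the rows
-/

set_option autoImplicit false

namespace Pool.Agent.KO

open Set Filter Topology MvPolynomial

/-! ## Block A -/

/-- Row A1 (file `A/Nf.lean`). Normal forms modulo the equation: existence. -/
def SpNf : Prop := ∀ (R : Type) [CommRing R] (t : R) (P : MvPolynomial (Fin 4) R),
  ∃ P' : MvPolynomial (Fin 4) R, NF P' ∧ gAff t ∣ P - P'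

/-- Row A1 (file `A/Nf.lean`). Normal forms modulo the equation: uniqueness. -/
def SpNfU : Prop := ∀ (R : Type) [CommRing R] [IsDomain R] (t : R) (P : MvPolynomial (Fin 4) R),
  NF P → gAff t ∣ P → P = 0

/-- Row A2 (file `A/Cls.lean`, from `SpNf`, `SpNfU`). -/
def SpCls : Prop := ∀ (r : ℝ) [Fact (0 < r)] (P : MvPolynomial (Fin 4) (AnR r)),
  cls P = 0 ↔ gAff (tR r) ∣ P

/-- Row A2 (file `A/Cls.lean`, from `SpNf`). Clearing denominators. -/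
def SpRep : Prop := ∀ (r : ℝ) [Fact (0 < r)] (M : ℕ) (a : Fin M → Raff (tK r)),
  ∃ c : AnR r, c ≠ 0 ∧ ∃ P : Fin M → MvPolynomial (Fin 4) (AnR r), (∀ i, NF (P i)) ∧
    ∀ i, cls (C c) * a i = cls (P i)

/-- Row A3 (file `A/Ev.lean`). Evaluation. -/
structure EvFacts : Prop where
  anQ : ∀ (r : ℝ) (n : ℕ) (P : MvPolynomial (Fin n) (AnR r)) (q : (Fin n → ℂ) × ℂ), ‖q.2‖ < r →
    AnalyticAt ℂ (fun q : (Fin n → ℂ) × ℂ => evQ P q.1 q.2) q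
  anP : ∀ (r : ℝ) (P : MvPolynomial (Fin 4) (AnR r)) (p : Fin 6 → ℂ), ‖p 5‖ < r →
    AnalyticAt ℂ (evP P) p
  anH : ∀ (r : ℝ) (m : ℕ) (P : MvPolynomial (Fin 4) (AnR r)) (p : Fin 6 → ℂ), ‖p 5‖ < r →
    AnalyticAt ℂ (evH m P) p
  gaff : ∀ (r : ℝ) (p : Fin 6 → ℂ), p 0 = 1 → ‖p 5‖ < r → evP (gAff (tR r)) p = G p
  actH : ∀ (r : ℝ) (m : ℕ) (P : MvPolynomial (Fin 4) (AnR r)),
    (∀ a ∈ P.support, Finsupp.weight wAff a ≤ m) → ∀ l : ℂ, l ≠ 0 → ∀ p,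
      evH m P (act l p) = l ^ m * evH m P p
  oneH : ∀ (r : ℝ) (m : ℕ) (P : MvPolynomial (Fin 4) (AnR r)) (p : Fin 6 → ℂ), p 0 = 1 →
    evH m P p = evP P p
  zeroH : ∀ (r : ℝ) (m : ℕ) (P : MvPolynomial (Fin 4) (AnR r)), 1 ≤ m →
    (∀ a ∈ P.support, Finsupp.weight wAff a ≤ m) → ∀ p : Fin 6 → ℂ, (∀ i, i ≠ 5 → p i = 0) →
      evH m P p = 0
  bind : ∀ (r : ℝ) (n : ℕ) (C : MvPolynomial (Fin n) (AnR r))
    (s : Fin n → MvPolynomial (Fin 4) (AnR r)) (p : Fin 6 → ℂ),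
      evP (bind₁ s C) p = evQ C (fun i => evP (s i) p) (p 5)

/-- Row A4 (file `A/Dens.lean`). Multiples of the equation vanish on `Vaff`. -/
def SpZer : Prop := ∀ (r : ℝ) [Fact (0 < r)] (P : MvPolynomial (Fin 4) (AnR r)), cls P = 0 →
  ∀ p ∈ Vaff r, evP P p = 0

/-- Row A4 (file `A/Dens.lean`). A normal form with a coefficient that is not zero at `t = c` is
not zero on a dense subset of the fibre. -/
def SpDenF : Prop := ∀ (r : ℝ) (P : MvPolynomial (Fin 4) (AnR r)), NF P →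
  ∀ c : Metric.ball (0 : ℂ) r, (∃ a, evR c (P.coeff a) ≠ 0) → ∀ p ∈ Vaff r, p 5 = c.1 →
    p ∈ closure {p' | p' ∈ Vaff r ∧ p' 5 = c.1 ∧ evP P p' ≠ 0}

/-- Row A4 (file `A/Dens.lean`). The same for the total space. -/
def SpDen : Prop := ∀ (r : ℝ) [Fact (0 < r)] (P : MvPolynomial (Fin 4) (AnR r)), cls P ≠ 0 →
  Vaff r ⊆ closure {p | p ∈ Vaff r ∧ evP P p ≠ 0}

/-- Row A5 (file `A/Ufd.lean`). Removing the common factors. -/
def SpUfd : Prop := ∀ (r : ℝ) [hr : Fact (0 < r)] (N : ℕ) [IsDomain (Raff (tK r))]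
  [UniqueFactorizationMonoid (Raff (tK r))] (P Q : Fin (N + 1) → MvPolynomial (Fin 4) (AnR r)),
  (∀ i, cls (Q i) ≠ 0) → (∃ i, cls (P i) ≠ 0) →
  ∃ s : Fin (N + 1) → MvPolynomial (Fin 4) (AnR r), (∀ i, NF (s i)) ∧
    (∀ i j, cls (s i * P j * Q i) = cls (s j * P i * Q j)) ∧
    (∀ d : Raff (tK r), (∀ i, d ∣ cls (s i)) → IsUnit d) ∧
    ∃ i a, evR ⟨0, by simpa using hr.out⟩ ((s i).coeff a) ≠ 0

/-- Row A6 (file `A/Lin.lean`). A linear form that does not vanish on a countable set. -/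
def SpLin : Prop := ∀ (N : ℕ) (E : Set (Fin (N + 1) → ℂ)), E.Countable → (∀ v ∈ E, v ≠ 0) →
  ∃ l : Fin (N + 1) → ℂ, ∀ v ∈ E, ∑ i, l i * v i ≠ 0

/-- Row A6 (file `A/Lin.lean`). -/
def SpT2 : Prop := ∀ N : ℕ, T2Space (PN N)

section

variable {F : Flip} {r : ℝ} {N : ℕ} {S : Set (PN N × ℂ)}

/-- Homogeneous coordinates of the image of the point `p` of the cone. -/
noncomputable def bx (b : Bimer F.O F.g r S) (p : Fin 6 → ℂ) : Fin (N + 1) → ℂ :=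
  open Classical in
  if h : ∃ h : p ∈ Cone ∧ p ∉ Gam, F.pi1 ⟨p, h⟩ ∈ {x | ‖F.g x‖ < r} \ b.A then
    (b.e.toFun ⟨F.pi1 ⟨p, h.choose⟩, h.choose_spec⟩).1.1.rep
  else 0

/-- The value of the linear form. -/
noncomputable def bl (b : Bimer F.O F.g r S) (l : Fin (N + 1) → ℂ) (p : Fin 6 → ℂ) : ℂ :=
  ∑ i, l i * bx b p i

/-- The set where the linear form is not zero. -/
def DL (b : Bimer F.O F.g r S) (l : Fin (N + 1) → ℂ) : Set (Fin 6 → ℂ) := {p | bl b l p ≠ 0}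

/-- The coordinates of the image, divided by the linear form. -/
noncomputable def fL (b : Bimer F.O F.g r S) (l : Fin (N + 1) → ℂ) (i : Fin (N + 1))
    (p : Fin 6 → ℂ) : ℂ := bx b p i / bl b l p

end

/-- Row A7 (file `A/Mer.lean`). The coordinates are meromorphic on the cone. -/
def SpMer : Prop := ∀ (F : Flip) (r : ℝ) (N : ℕ) (S : Set (PN N × ℂ))
  (b : Bimer F.O F.g r S), 0 < r → r ≤ 1 → F.XaFacts → PFacts N →
    ∃ l : Fin (N + 1) → ℂ, ∀ i, GA.MData r (DL b l) (fL b l i)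

/-- Row A9 (file `A/Map.lean`). The map is given by the polynomials. -/
def SpMap : Prop := ∀ (F : Flip) (r : ℝ) (N : ℕ) (S : Set (PN N × ℂ))
  (b : Bimer F.O F.g r S), 0 < r → r ≤ 1 → F.XaFacts → PFacts N → T2Space (PN N) →
  ∀ l : Fin (N + 1) → ℂ, (∀ i, GA.MData r (DL b l) (fL b l i)) →
  ∀ (r1 : ℝ) [Fact (0 < r1)], r1 ≤ r → IsDomain (Raff (tK r1)) →
  ∀ P Q : Fin (N + 1) → MvPolynomial (Fin 4) (AnR r1), (∀ i, cls (Q i) ≠ 0) →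
  (∀ i, ∀ p ∈ DL b l, p 0 = 1 → ‖p 5‖ < r1 → evP (Q i) p * fL b l i p = evP (P i) p) →
  ∀ s : Fin (N + 1) → MvPolynomial (Fin 4) (AnR r1),
  (∀ i j, cls (s i * P j * Q i) = cls (s j * P i * Q j)) →
  ∀ m : ℕ, (∀ i, ∀ a ∈ (s i).support, Finsupp.weight wAff a ≤ m) →
  ∀ p : Flip.M1, ‖p.1 5‖ < r1 → ∀ h : F.pi1 p ∈ {x | ‖F.g x‖ < r} \ b.A,
    ∀ hs : (fun i => evH m (s i) p.1) ≠ 0,
      (b.e.toFun ⟨F.pi1 p, h⟩).1.1 = Projectivization.mk ℂ (fun i => evH m (s i) p.1) hs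

/-- Row A10 (file `A/Pos.lean`). The degree is positive. -/
def SpPos : Prop := ∀ (F : Flip) (r : ℝ) (N : ℕ) (S : Set (PN N × ℂ))
  (b : Bimer F.O F.g r S), 0 < r → r ≤ 1 → F.XaFacts → PFacts N →
  ∀ (r1 r2 : ℝ) [Fact (0 < r1)], 0 < r2 → r2 ≤ r1 → r1 ≤ r →
  ∀ s : Fin (N + 1) → MvPolynomial (Fin 4) (AnR r1), (∀ i, NF (s i)) →
  ∀ m : ℕ, (∀ i, ∀ a ∈ (s i).support, Finsupp.weight wAff a ≤ m) →
  (∀ c : Metric.ball (0 : ℂ) r1, ‖c.1‖ < r2 → ∃ i a, evR c ((s i).coeff a) ≠ 0) →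
  (∀ p : Flip.M1, ‖p.1 5‖ < r2 → ∀ h : F.pi1 p ∈ {x | ‖F.g x‖ < r} \ b.A,
    ∀ hs : (fun i => evH m (s i) p.1) ≠ 0,
      (b.e.toFun ⟨F.pi1 p, h⟩).1.1 = Projectivization.mk ℂ (fun i => evH m (s i) p.1) hs) →
  1 ≤ m

/-- Row A11 (file `A/Main.lean`). -/
def SpSec : Prop := ∀ (F : Flip) (r : ℝ) (N : ℕ) (S : Set (PN N × ℂ))
  (b : Bimer F.O F.g r S), 0 < r → r ≤ 1 → Nonempty (Sec F b)

/-! ## Block B -/

/-- The point of the affine part with coordinates `v = (u, w, x, t)` and the given `y`. -/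
def vpt (v : Fin 4 → ℂ) (y : ℂ) : Fin 6 → ℂ := ![1, v 0, v 1, v 2, y, v 3]

/-- Row B1 (file `B/Loc.lean`). A point of the affine part where the map `(s_i / s_{j₀}, t)` is
an immersion. -/
def SpB1 : Prop := ∀ (F : Flip) (r : ℝ) (N : ℕ) (S : Set (PN N × ℂ))
  (b : Bimer F.O F.g r S), 0 < r → r ≤ 1 → F.XaFacts → PFacts N → ∀ σ : Sec F b,
  ∃ (v : Fin 4 → ℂ) (y : (Fin 4 → ℂ) → ℂ) (j : Fin (N + 1)), AnalyticAt ℂ y v ∧
    (∀ᶠ v' in 𝓝 v, vpt v' (y v') ∈ Vaff σ.r1 ∧ evP (σ.s j) (vpt v' (y v')) ≠ 0) ∧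
    ∀ d : Fin 4 → ℂ, (∀ i, fderiv ℂ (fun v' => evP (σ.s i) (vpt v' (y v')) /
      evP (σ.s j) (vpt v' (y v'))) v d = 0) → d 3 = 0 → d = 0

/-- Row B2 (file `B/Minor.lean`). -/
def SpB2 : Prop := ∀ (N : ℕ) (L : Fin (N + 1) → ((Fin 4 → ℂ) →L[ℂ] ℂ)),
  (∀ d : Fin 4 → ℂ, (∀ i, L i d = 0) → d 3 = 0 → d = 0) →
  ∃ i : Fin 3 → Fin (N + 1), ∀ d : Fin 4 → ℂ, (∀ j, L (i j) d = 0) → d 3 = 0 → d = 0

/-- Row B3 (file `B/Ind.lean`). Three of the quotients are algebraically independent. -/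
def SpB3 : Prop := ∀ (r : ℝ) [Fact (0 < r)] [IsDomain (Raff (tK r))] (N : ℕ)
  (s : Fin (N + 1) → MvPolynomial (Fin 4) (AnR r)) (i : Fin 3 → Fin (N + 1)) (j : Fin (N + 1))
  (v : Fin 4 → ℂ) (y : (Fin 4 → ℂ) → ℂ), AnalyticAt ℂ y v →
  (∀ᶠ v' in 𝓝 v, vpt v' (y v') ∈ Vaff r ∧ evP (s j) (vpt v' (y v')) ≠ 0) →
  (∀ d : Fin 4 → ℂ, (∀ l, fderiv ℂ (fun v' => evP (s (i l)) (vpt v' (y v')) /
      evP (s j) (vpt v' (y v'))) v d = 0) → d 3 = 0 → d = 0) →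
  AlgebraicIndependent (Kr r) (fun l => algebraMap (Raff (tK r)) (FractionRing (Raff (tK r)))
    (cls (s (i l))) / algebraMap (Raff (tK r)) (FractionRing (Raff (tK r))) (cls (s j)))

/-- Row B4 (file `B/Alg.lean`). Everything is algebraic over three independent elements. -/
def SpB4 : Prop := ∀ (k : Type) [Field k] (t : k) [IsDomain (Raff t)]
  (φ : Fin 3 → FractionRing (Raff t)), AlgebraicIndependent k φ →
  ∀ a : FractionRing (Raff t), ∃ (δ : ℕ) (C : ℕ → MvPolynomial (Fin 3) k), C δ ≠ 0 ∧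
    ∑ n ∈ Finset.range (δ + 1), aeval φ (C n) * a ^ n = 0

/-- Row B5 (file `B/Clear.lean`). Clearing denominators and homogenizing. -/
def SpB5 : Prop := ∀ (r : ℝ) [Fact (0 < r)] [IsDomain (Raff (tK r))] (N : ℕ)
  (s : Fin (N + 1) → MvPolynomial (Fin 4) (AnR r)) (i : Fin 3 → Fin (N + 1)) (j : Fin (N + 1)),
  cls (s j) ≠ 0 →
  AlgebraicIndependent (Kr r) (fun l => algebraMap (Raff (tK r)) (FractionRing (Raff (tK r)))
    (cls (s (i l))) / algebraMap (Raff (tK r)) (FractionRing (Raff (tK r))) (cls (s j))) →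
  ∀ (a : MvPolynomial (Fin 4) (AnR r)) (δ : ℕ) (C : ℕ → MvPolynomial (Fin 3) (Kr r)), C δ ≠ 0 →
  ∑ n ∈ Finset.range (δ + 1), aeval (fun l => algebraMap (Raff (tK r))
    (FractionRing (Raff (tK r))) (cls (s (i l))) / algebraMap (Raff (tK r))
      (FractionRing (Raff (tK r))) (cls (s j))) (C n) *
      algebraMap (Raff (tK r)) (FractionRing (Raff (tK r))) (cls a) ^ n = 0 →
  ∃ (D : ℕ) (C' : ℕ → MvPolynomial (Fin (N + 1)) (AnR r)), (∀ n, (C' n).IsHomogeneous D) ∧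
    cls (∑ n ∈ Finset.range (δ + 1), bind₁ s (C' n) * a ^ n) = 0 ∧ cls (bind₁ s (C' δ)) ≠ 0

/-- Row B6 (file `B/Main.lean`). The coordinates `u, w, x, y` are algebraic over the
homogeneous coordinates. -/
def SpB : Prop := ∀ (F : Flip) (r : ℝ) (N : ℕ) (S : Set (PN N × ℂ))
  (b : Bimer F.O F.g r S), 0 < r → r ≤ 1 → ∀ σ : Sec F b, ∀ j : Fin 4,
  ∃ (D δ : ℕ) (C : ℕ → MvPolynomial (Fin (N + 1)) (AnR σ.r1)),
    (∀ n, (C n).IsHomogeneous D) ∧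
    (∀ p ∈ Vaff σ.r1, ∑ n ∈ Finset.range (δ + 1),
      evQ (C n) (fun i => evP (σ.s i) p) (p 5) * affPt p j ^ n = 0) ∧
    @cls σ.r1 σ.pos1 (bind₁ σ.s (C δ)) ≠ 0

end Pool.Agent.KO
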