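import Pool.Agent.KO.A.Spec

/-!
# Project KO, row A5: removing the common factors
-/

set_option autoImplicit false

namespace Pool.Agent.KO.A5

open Set Filter Topology MvPolynomial

theorem zero_mem_ball {r : ℝ} (hr : 0 < r) : (0 : ℂ) ∈ Metric.ball (0 : ℂ) r := by
  simpa using hr

/-- A function of the disc that vanishes at `0` is divisible by the coordinate. -/
theorem tR_dvd {r : ℝ} (hr : 0 < r) (f : AnR r) (h : evR ⟨0, zero_mem_ball hr⟩ f = 0) :
    tR r ∣ f := by
  obtain ⟨F, hF, hf⟩ := AnR.exists_fun f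
  have h0 : F 0 = 0 := by
    have : f.1 ⟨0, zero_mem_ball hr⟩ = 0 := h
    rw [hf] at this
    exact this
  have hb : Metric.ball (0 : ℂ) r ∈ 𝓝 (0 : ℂ) := Metric.ball_mem_nhds _ hr
  have hd : DifferentiableOn ℂ (dslope F 0) (Metric.ball 0 r) :=
    (Complex.differentiableOn_dslope hb).2 hF.differentiableOn
  refine ⟨⟨fun s => dslope F 0 s, dslope F 0, hd.analyticOnNhd Metric.isOpen_ball,
    fun _ => rfl⟩, ?_⟩
  apply Subtype.ext
  funext s
  show f.1 s = s.1 * dslope F 0 s.1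
  have h1 := sub_smul_dslope F 0 s.1
  rw [h0, sub_zero, sub_zero, smul_eq_mul] at h1
  rw [h1, hf]

/-- A nonzero function of the disc is not divisible by all the powers of the coordinate. -/
theorem exists_not_dvd {r : ℝ} (hr : 0 < r) (f : AnR r) (h : f ≠ 0) :
    ∃ n : ℕ, ¬ tR r ^ n ∣ f := by
  by_contra hc
  push Not at hc
  obtain ⟨F, hF, hf⟩ := AnR.exists_fun f
  have hb : Metric.ball (0 : ℂ) r ∈ 𝓝 (0 : ℂ) := Metric.ball_mem_nhds _ hr
  have h1 : analyticOrderAt F 0 = ⊤ := by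
    rw [ENat.eq_top_iff_forall_ge]
    intro n
    rw [natCast_le_analyticOrderAt (hF 0 (zero_mem_ball hr))]
    obtain ⟨g, hg⟩ := hc n
    obtain ⟨G, hG, hgG⟩ := AnR.exists_fun g
    refine ⟨G, hG 0 (zero_mem_ball hr), ?_⟩
    filter_upwards [hb] with z hz
    have h2 : f.1 ⟨z, hz⟩ = (tR r ^ n * g).1 ⟨z, hz⟩ := by rw [← hg]
    have h3 : (tR r ^ n * g).1 ⟨z, hz⟩ = z ^ n * g.1 ⟨z, hz⟩ := rfl
    rw [h3, hf, hgG] at h2
    rw [sub_zero, smul_eq_mul]
    exact h2
  have h2 : ∀ᶠ z in 𝓝 (0 : ℂ), F z = 0 := analyticOrderAt_eq_top.1 h1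
  have h3 := hF.eqOn_zero_of_preconnected_of_eventuallyEq_zero
    (convex_ball (0 : ℂ) r).isPreconnected (zero_mem_ball hr) h2
  apply h
  apply Subtype.ext
  funext s
  rw [hf]
  exact h3 s.2

theorem tR_ne_zero {r : ℝ} (hr : 0 < r) : tR r ≠ 0 := by
  intro h
  have hm : ((r / 2 : ℝ) : ℂ) ∈ Metric.ball (0 : ℂ) r := by
    rw [mem_ball_zero_iff, Complex.norm_real, Real.norm_eq_abs, abs_of_pos (by linarith)]
    linarith
  have := congrFun (congrArg Subtype.val h) ⟨_, hm⟩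
  have h2 : ((r / 2 : ℝ) : ℂ) = 0 := this
  rw [Complex.ofReal_eq_zero] at h2
  linarith

/-- Dividing a family of polynomials by the largest power of the coordinate. -/
theorem exists_div {r : ℝ} (hr : 0 < r) {M : ℕ} (P : Fin M → MvPolynomial (Fin 4) (AnR r))
    (i0 : Fin M) (h : P i0 ≠ 0) :
    ∃ (e : ℕ) (s : Fin M → MvPolynomial (Fin 4) (AnR r)), (∀ i, P i = C (tR r ^ e) * s i) ∧
      ∃ i a, evR ⟨0, zero_mem_ball hr⟩ ((s i).coeff a) ≠ 0 := by
  classical
  obtain ⟨a0, ha0⟩ := MvPolynomial.ne_zero_iff.1 h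
  obtain ⟨n, hn⟩ := exists_not_dvd hr _ ha0
  have hex : ∃ n : ℕ, ¬ ∀ i a, tR r ^ n ∣ (P i).coeff a := ⟨n, fun h => hn (h i0 a0)⟩
  have hpos : 0 < Nat.find hex := by
    rw [Nat.pos_iff_ne_zero]
    intro h0
    have := Nat.find_spec hex
    rw [h0] at this
    exact this fun i a => by rw [pow_zero]; exact one_dvd _
  have hlt := Nat.find_min hex (m := Nat.find hex - 1) (by omega)
  rw [not_not] at hlt
  have hspec := Nat.find_spec hex
  obtain ⟨e, he⟩ : ∃ e, Nat.find hex = e + 1 := ⟨Nat.find hex - 1, by omega⟩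
  rw [he] at hlt hspec
  rw [Nat.add_sub_cancel] at hlt
  have hdvd : ∀ i, C (tR r ^ e) ∣ P i := fun i =>
    (MvPolynomial.C_dvd_iff_dvd_coeff _ _).2 fun a => hlt i a
  choose s hs using hdvd
  refine ⟨e, s, hs, ?_⟩
  by_contra hc
  push Not at hc
  refine hspec fun i a => ?_
  obtain ⟨g, hg⟩ := tR_dvd hr _ (hc i a)
  refine ⟨g, ?_⟩
  rw [hs i, coeff_C_mul, hg]
  ring

/-- Constants that are not zero are units in the ring over the field of constants. -/
theorem isUnit_cls_C {r : ℝ} [Fact (0 < r)] {c : AnR r} (hc : c ≠ 0) :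
    IsUnit (cls (r := r) (C c)) := by
  have h1 : algebraMap (AnR r) (Kr r) c ≠ 0 := by
    rw [Ne, IsFractionRing.to_map_eq_zero_iff]
    exact hc
  have h2 : IsUnit (C (algebraMap (AnR r) (Kr r) c) : MvPolynomial (Fin 4) (Kr r)) :=
    (IsUnit.mk0 _ h1).map C
  have h3 : cls (r := r) (C c) =
      Ideal.Quotient.mk _ (C (algebraMap (AnR r) (Kr r) c) : MvPolynomial (Fin 4) (Kr r)) := by
    unfold cls
    rw [RingHom.comp_apply, map_C]
  rw [h3]
  exact h2.map _

/-- Removing a common divisor in a factorial domain. -/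
theorem exists_coprime {A : Type} [CommRing A] [IsDomain A] [UniqueFactorizationMonoid A] {M : ℕ}
    (a : Fin (M + 1) → A) (h : ∃ i, a i ≠ 0) :
    ∃ (d : A) (a' : Fin (M + 1) → A), d ≠ 0 ∧ (∀ i, a i = d * a' i) ∧
      ∀ e : A, (∀ i, e ∣ a' i) → IsUnit e := by
  classical
  let _ := UniqueFactorizationMonoid.strongNormalizationMonoid (α := A)
  let _ := UniqueFactorizationMonoid.toNormalizedGCDMonoid A
  obtain ⟨g, h1, h2⟩ := Finset.extract_gcd (s := Finset.univ) a Finset.univ_nonempty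
  refine ⟨Finset.univ.gcd a, g, ?_, fun i => h1 i (Finset.mem_univ i), fun e he => ?_⟩
  · rintro h0
    obtain ⟨i, hi⟩ := h
    exact hi (by rw [h1 i (Finset.mem_univ i), h0, zero_mul])
  · have : e ∣ Finset.univ.gcd g := Finset.dvd_gcd fun i _ => he i
    rw [h2] at this
    exact isUnit_of_dvd_one this

end Pool.Agent.KO.A5

namespace Pool.Agent.KO

open Set Filter Topology MvPolynomial

theorem sp_ufd (_hn : SpNf) (_hc : SpCls) (hrep : SpRep) : SpUfd := by
  classical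
  intro r hr N _ _ P Q hQ hP
  -- the elements of the factorial ring
  obtain ⟨a, ha⟩ : ∃ a : Fin (N + 1) → Raff (tK r), ∀ i,
      a i = cls (P i) * ∏ j ∈ Finset.univ.erase i, cls (Q j) := ⟨_, fun _ => rfl⟩
  have hprod : ∀ i, a i * cls (Q i) = cls (P i) * ∏ j, cls (Q j) := fun i => by
    rw [ha, mul_assoc, Finset.prod_erase_mul _ _ (Finset.mem_univ i)]
  have hrel : ∀ i j, a i * cls (P j) * cls (Q i) = a j * cls (P i) * cls (Q j) := fun i j => by
    calc a i * cls (P j) * cls (Q i) = (a i * cls (Q i)) * cls (P j) := by ring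
      _ = (a j * cls (Q j)) * cls (P i) := by rw [hprod, hprod]; ring
      _ = a j * cls (P i) * cls (Q j) := by ring
  obtain ⟨i0, hi0⟩ := hP
  have ha0 : a i0 ≠ 0 := by
    rw [ha]
    exact mul_ne_zero hi0 (Finset.prod_ne_zero_iff.2 fun j _ => hQ j)
  obtain ⟨d, a', hd, haa, hcop⟩ := A5.exists_coprime a ⟨i0, ha0⟩
  obtain ⟨c, hc, P', hnf, hP'⟩ := hrep r (N + 1) a'
  have huc : IsUnit (cls (r := r) (C c)) := A5.isUnit_cls_C hc
  have hne : P' i0 ≠ 0 := by
    intro h0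
    have h1 := hP' i0
    rw [h0, map_zero] at h1
    rcases mul_eq_zero.1 h1 with h2 | h2
    · exact huc.ne_zero h2
    · exact ha0 (by rw [haa, h2, mul_zero])
  obtain ⟨e, s, hs, i1, a1, h1⟩ := A5.exists_div hr.out P' i0 hne
  have hte : tR r ^ e ≠ 0 := pow_ne_zero _ (A5.tR_ne_zero hr.out)
  have hut : IsUnit (cls (r := r) (C (tR r ^ e))) := A5.isUnit_cls_C hte
  have hcls : ∀ i, cls (C c) * a' i = cls (C (tR r ^ e)) * cls (s i) := fun i => by
    rw [hP', hs i, map_mul]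
  refine ⟨s, fun i b hb => ?_, fun i j => ?_, fun x hx => ?_, i1, a1, h1⟩
  · refine hnf i b ?_
    rw [mem_support_iff] at hb ⊢
    rw [hs i, coeff_C_mul]
    exact mul_ne_zero hte hb
  · rw [map_mul, map_mul, map_mul, map_mul]
    have hu : d * cls (C (tR r ^ e)) ≠ 0 := mul_ne_zero hd hut.ne_zero
    apply mul_left_cancel₀ hu
    calc d * cls (C (tR r ^ e)) * (cls (s i) * cls (P j) * cls (Q i))
        = cls (C (tR r ^ e)) * cls (s i) * (d * cls (P j) * cls (Q i)) := by ring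
      _ = cls (C c) * (a i * cls (P j) * cls (Q i)) := by rw [← hcls, haa]; ring
      _ = cls (C c) * (a j * cls (P i) * cls (Q j)) := by rw [hrel]
      _ = cls (C (tR r ^ e)) * cls (s j) * (d * cls (P i) * cls (Q j)) := by
        rw [← hcls, haa]; ring
      _ = d * cls (C (tR r ^ e)) * (cls (s j) * cls (P i) * cls (Q j)) := by ring
  · refine hcop x fun i => ?_
    have h2 : x ∣ cls (C c) * a' i := by
      rw [hcls]
      exact Dvd.dvd.mul_left (hx i) _
    exact (huc.dvd_mul_left).1 h2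

end Pool.Agent.KO
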